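import Pool.Agent.Helper57.TA.Dsc
import Pool.Agent.Helper99.EC.FinA

/-! Exact entropy calculus: DESCENT over the cells of a family of functions of the space below: a function on an
extension which agrees for two copies given the family comes from below. Version of Helper57/TA/Dsc (where the copies
are taken given the whole space below). -/

set_option autoImplicit false

namespace Pool.Agent.Helper50.VM

open Finset Filter Topology Pool.Agent.Helper69.RK Pool.Agent.Helper31.EC Pool.Agent.Helper31.EC.Sp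
open Pool.Agent.Helper31.EC.QS Pool.Agent.Helper25.EC Pool.Agent.Helper99.EC
open Pool.Agent.Helper57.TA

noncomputable section

variable {W T : Sp}

open Classical in
/-- DESCENT over cells -/
theorem descendC (p : Pj W T) {m : ℕ} (X : T.VV m) (f : QS W) {r : ℝ} (hr : r ≤ 1)
    (h : (two1 (cv p X)).qs f - (two2 (cv p X)).qs f ∈ Id (two (cv p X)) r) : ∃ g : QS T, p.qs g - f ∈ Id W r := by
  obtain ⟨f, rfl⟩ := mk_surj f
  rw [(two1 (cv p X)).qs_mk, (two2 (cv p X)).qs_mk, ← map_sub, mem_Id_iff, min_eq_left hr] at h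
  obtain ⟨E, K, hE, hK, hh⟩ := h
  obtain ⟨π, hπ⟩ : ∃ π : ∀ k, (W.F k).Ω → (Fin m → ℤ) × Quotient (W.F k).Z,
    π = fun k w => (cv p X k w, Quotient.mk (W.F k).Z w) := ⟨_, rfl⟩
  have hsec : ∀ k, ∃ σ : (Fin m → ℤ) × Quotient (W.F k).Z → (W.F k).Ω,
      (∀ ω, (W.F k).μ ω ≠ 0 → (W.F k).μ (σ (π k ω)) ≠ 0 ∧ π k (σ (π k ω)) = π k ω) ∧
      mass (res (W.F k).μ (fun ω => ¬ E k (σ (π k ω), ω))) ≤
        mass (res (amw (W.F k).μ (W.F k).μ (π k) (π k)) (fun w => ¬ E k w)) := by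
    intro k
    have := FSp_nonempty (W.F k)
    exact fin_section (W.F k).μ (W.F k).nn (π k) (E k)
  choose σ hσ1 hσ2 using hsec
  obtain ⟨K', hK', hf⟩ := f.2
  have hKS : T.Sub K' := by
    refine ⟨hK'.1, ?_⟩
    have h1 := hK'.2
    have h2 : ∀ k, (W.F k).n = (T.F k).n := p.hn
    simp only [h2] at h1
    exact h1
  have hwd : ∀ k w w', (W.F k).μ w ≠ 0 → (W.F k).μ w' ≠ 0 → p.π k w = p.π k w' → π k w = π k w' := by
    intro k w w' hw hw' e
    rw [hπ]
    beta_reduce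
    have e1 : cv p X k w = cv p X k w' := by
      show X.cellv 1 k (p.π k w) = X.cellv 1 k (p.π k w')
      rw [e]
    have e2 : (Quotient.mk (W.F k).Z w) = Quotient.mk (W.F k).Z w' := by
      apply Quotient.sound
      show (W.F k).Z w w'
      rw [p.hZ k _ _ hw hw', e]
    rw [e1, e2]
  set g : TR T := ⟨fun k s => if h : ∃ w, (W.F k).μ w ≠ 0 ∧ p.π k w = s then TR.ev f k (σ k (π k h.choose)) else 0,
    K', hKS, by
    filter_upwards [hf] with k hk s hs
    obtain ⟨ω, h1, h2⟩ := p.exists_lift k s hs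
    have hex : ∃ w, (W.F k).μ w ≠ 0 ∧ p.π k w = s := ⟨ω, h1, h2⟩
    show |(if h : ∃ w, (W.F k).μ w ≠ 0 ∧ p.π k w = s then TR.ev f k (σ k (π k h.choose)) else 0)| ≤ K' k
    rw [dif_pos hex]
    exact hk _ (hσ1 k _ hex.choose_spec.1).1⟩ with hg
  have hgw : ∀ k w, (W.F k).μ w ≠ 0 → TR.ev g k (p.π k w) = TR.ev f k (σ k (π k w)) := by
    intro k w hw
    have hex : ∃ w', (W.F k).μ w' ≠ 0 ∧ p.π k w' = p.π k w := ⟨w, hw, rfl⟩
    show (if h : ∃ w', (W.F k).μ w' ≠ 0 ∧ p.π k w' = p.π k w then TR.ev f k (σ k (π k h.choose)) else 0) = _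
    rw [dif_pos hex, hwd k _ w hex.choose_spec.1 hw hex.choose_spec.2]
  refine ⟨mk g, ?_⟩
  rw [p.qs_mk, ← map_sub, mem_Id_iff, min_eq_left hr]
  refine ⟨fun k ω => E k (σ k (π k ω), ω), K, ?_, hK, ?_⟩
  · refine tendsto_of_tendsto_of_tendsto_of_le_of_le tendsto_const_nhds hE
      (fun k => mass_res_nonneg k _) (fun k => ?_)
    have h1 := hσ2 k
    rw [hπ] at h1
    rw [hπ]
    exact h1
  · filter_upwards [hh] with k hk ω hω hEω
    obtain ⟨h1, h2⟩ := hσ1 k ω hω
    have h3 := hk (σ k (π k ω), ω) (by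
      have h4 : amw (W.F k).μ (W.F k).μ (π k) (π k) (σ k (π k ω), ω) ≠ 0 := by
        unfold amw
        rw [e1_ind_pos h2, one_mul]
        apply div_ne_zero (mul_ne_zero h1 hω)
        exact (ms_pos (W.F k).μ (π k) (W.F k).nn _ h1).ne'
      rw [hπ] at h4 ⊢
      exact h4) hEω
    have h6 := hgw k ω hω
    have e1 : TR.ev (p.tr g - f) k ω = TR.ev g k (p.π k ω) - TR.ev f k ω := rfl
    have e2 : TR.ev ((two1 (cv p X)).tr f - (two2 (cv p X)).tr f) k (σ k (π k ω), ω) =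
        TR.ev f k (σ k (π k ω)) - TR.ev f k ω := rfl
    show |TR.ev (p.tr g - f) k ω - 0| ≤ _
    have h7 : |TR.ev ((two1 (cv p X)).tr f - (two2 (cv p X)).tr f) k (σ k (π k ω), ω) - 0| ≤
      K k * (two (cv p X)).dl r k := h3
    rw [e2] at h7
    rw [e1, h6]
    exact h7

/-- COPIES GIVEN A FAMILY OF FUNCTIONS OF THE SPACE BELOW, with descent: functions which agree for the two copies come
from below -/
theorem exists_twoC (p : Pj W T) {κ : Type} [Fintype κ] (f : κ → QS T) :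
    ∃ (R : Sp) (r1 r2 : Pj R W), (∀ a, r1.qs (p.qs (f a)) = r2.qs (p.qs (f a))) ∧
      (∀ x y, I (r1.map x) (r2.map y) (r1.map (p.map (vd f 1))) = 0) ∧
      ∀ (c : QS W) (r : ℝ) (A : T.L), 0 ≤ r → r ≤ 1 → dg c r ≤ p.map A → r1.qs c - r2.qs c ∈ Id R r →
        ∃ g : QS T, dg g 1 ≤ A ∧ p.qs g - c ∈ Id W r := by
  classical
  obtain ⟨m, hm⟩ : ∃ m, m = Fintype.card κ := ⟨_, rfl⟩
  obtain ⟨e⟩ : Nonempty (Fin m ≃ κ) := ⟨(Fintype.equivFinOfCardEq hm.symm).symm⟩
  obtain ⟨X, hX⟩ : ∃ X : T.VV m, X = TR.vec (fun i => rep (f (e i))) := ⟨_, rfl⟩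
  have hXv : X.dg 1 = vd f 1 := by
    rw [hX, TR.vec_dg_eq]
    apply le_antisymm
    · apply Finset.sup_le
      intro i _
      rw [← dg_mk _ le_rfl, mk_rep]
      exact dg_le_vd f 1 (e i)
    · rw [vd_le]
      intro a
      have h1 := Finset.le_sup (f := fun i => TR.dg (rep (f (e i))) 1) (Finset.mem_univ (e.symm a))
      beta_reduce at h1
      rw [← dg_mk _ le_rfl, mk_rep, Equiv.apply_symm_apply] at h1
      exact h1
  refine ⟨two (cv p X), two1 (cv p X), two2 (cv p X), fun a => ?_, fun x y => ?_, ?_⟩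
  · have h1 := two_com p X (e.symm a)
    have h2 : mk (TR.cor X (e.symm a)) = f a := by
      rw [hX, TR.cor_vec, Equiv.apply_symm_apply, mk_rep]
    rw [h2] at h1
    exact h1
  · rw [← hXv]
    exact two_ind p X x y
  · intro c r A h0 h1 hA h
    obtain ⟨g, hg⟩ := descendC p X c h1 h
    obtain ⟨g', h3, h4⟩ := exists_round g h0 h1
    refine ⟨g', h3.trans ?_, ?_⟩
    · rw [← p.map_le, ← p.qs_dg, dg_eq_of_sub_mem hg le_rfl h1]
      exact hA
    · have h5 := (p.qs_mem_Id h1).mpr h4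
      rw [map_sub] at h5
      have h6 := (Id W r).sub_mem hg h5
      have e : p.qs g - c - (p.qs g - p.qs g') = p.qs g' - c := by ring
      rwa [e] at h6

end

end Pool.Agent.Helper50.VM
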