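import Pool.Agent.Helper50.VM.Exi
import Pool.Agent.Helper50.VM.Dsc

/-! Exact entropy calculus: THE END for curved lines of several types with vector valued top coordinates: the top
coordinates are, up to labels of the curves, free polynomials of the base point at depth `θ ρ`. -/

set_option autoImplicit false

namespace Pool.Agent.Helper50.VM

open Pool.Agent.Helper31.EC QS Pool.Agent.Helper38.NS Pool.Agent.Helper99.EC Pool.Agent.Helper96.FLT
open Pool.Agent.Helper50.VC (VB)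

noncomputable section

/-- sub-families of stars -/
theorem sub_star {T W : Sp} {κ ι ι' : Type} [Fintype κ] [Fintype ι] [Fintype ι'] {f : κ → QS T} {p : ι → Pj W T}
    (hs : IsStar f p) (e : ι' → ι) (he : Function.Injective e) : IsStar f (fun i => p (e i)) := by
  classical
  refine ⟨fun i j a => hs.com (e i) (e j) a, fun i0 A => ?_⟩
  obtain ⟨A', hA1, hA2⟩ : ∃ A' : ι → T.L, (∀ i, A' (e i) = A i) ∧ ∀ j, (¬ ∃ i, e i = j) → A' j = ⊥ :=
    ⟨fun j => if h : ∃ i, e i = j then A h.choose else ⊥, fun i => by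
      have h : ∃ i', e i' = e i := ⟨i, rfl⟩
      beta_reduce
      rw [dif_pos h, he h.choose_spec], fun j hj => by
      beta_reduce
      rw [dif_neg hj]⟩
  have h1 := hs.ind (e i0) A'
  have h2 : (Finset.univ.sup fun j => (p j).map (A' j)) = Finset.univ.sup fun i => (p (e i)).map (A i) := by
    apply le_antisymm
    · apply Finset.sup_le
      intro j _
      by_cases hj : ∃ i, e i = j
      · obtain ⟨i, rfl⟩ := hj
        rw [hA1]
        exact Finset.le_sup (f := fun i => (p (e i)).map (A i)) (Finset.mem_univ i)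
      · rw [hA2 j hj, Pj.map_bot]
        exact bot_le
    · apply Finset.sup_le
      intro i _
      rw [← hA1]
      exact Finset.le_sup (f := fun j => (p j).map (A' j)) (Finset.mem_univ (e i))
  have h3 : ∑ j, h (A' j) (vd f 1) = ∑ i, h (A i) (vd f 1) := by
    rw [← Finset.sum_subset (Finset.subset_univ (Finset.univ.image e)), Finset.sum_image (fun a _ b _ h => he h)]
    · apply Finset.sum_congr rfl
      intro i _
      rw [hA1]
    · intro j _ hj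
      rw [hA2 j, h_zero bot_le]
      rintro ⟨i, rfl⟩
      exact hj (Finset.mem_image_of_mem e (Finset.mem_univ i))
  rw [h2, h3] at h1
  exact h1

/-- evaluation of polynomials whose coefficients agree modulo an ideal -/
theorem eval_congr {A σ : Type*} [CommRing A] (J : Ideal A) (P Q : MvPolynomial σ A) (x : σ → A)
    (h : ∀ m, P.coeff m - Q.coeff m ∈ J) : MvPolynomial.eval x P - MvPolynomial.eval x Q ∈ J := by
  rw [← map_sub, MvPolynomial.eval_eq]
  apply J.sum_mem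
  intro m _
  apply J.mul_mem_right
  rw [MvPolynomial.coeff_sub]
  exact h m

variable {S : Sp} {d k N : ℕ} {ι ι' : Type} [Fintype ι] [Fintype ι']

/-- uniqueness of potentials: stars and sub-stars -/
theorem vpt_unique {s0 : VB S d k N} {σ : ι → VB S d k N} {σ' : ι' → VB S d k N} (hs' : Hyps s0 σ')
    (hq : Rl s0.q ⊥) {V : Sp} {p : ι → Pj V S} {p' : ι' → Pj V S} (hp' : IsStar s0.fQ p') (g : ι → ι')
    (hg : ∀ i, p' (g i) = p i) (hσ : ∀ i, σ' (g i) = σ i) (e : Fin (d + 1) → ι) (hdet : IsUnit (frm σ p e).det)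
    {κ : ℝ} (κ0 : 0 < κ) (κ1 : κ ≤ 1) {K K' : ℕ} {n : Fin N} {f f' : MvPolynomial (Fin (d + 1)) (QS V)}
    (h : VPt s0 σ p κ K n f) (h' : VPt s0 σ' p' κ K' n f') (m : Fin (d + 1) →₀ ℕ) :
    f.coeff m - f'.coeff m ∈ Id V κ := by
  classical
  have hU : vd (drs σ p) 1 ≤ vd (drs σ' p') 1 := by
    rw [vd_le]
    intro a
    have h1 := dg_le_vd (drs σ' p') 1 (g a.1, a.2)
    have h2 : drs σ' p' (g a.1, a.2) = drs σ p a := by
      show (p' (g a.1)).qs ((σ' (g a.1)).x a.2) = (p a.1).qs ((σ a.1).x a.2)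
      rw [hg, hσ]
    rw [h2] at h1
    exact h1
  obtain ⟨q, hqd⟩ : ∃ q : Fin (d + 1) → QS V, q = fun j => (p' (g (e 0))).qs (s0.q j) := ⟨_, rfl⟩
  have hqi : ∀ i j, (p i).qs (s0.q j) = q j := by
    intro i j
    rw [hqd, ← hg]
    exact hp'.com (g i) (g (e 0)) (Sum.inl j)
  have hqR : Rl q (vd (drs σ' p') 1) := by
    rw [hqd]
    exact q_rl hs' hq hp' (g (e 0))
  have hcom : ∀ i, Com s0 (σ i) := fun i => by
    rw [← hσ]
    exact hs'.c (g i)
  have hav : ∀ i j, (p i).qs ((σ i).av j) = q j - q 0 * (p i).qs ((σ i).v j) := by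
    intro i j
    have h0 : (p i).qs s0.t = q 0 := hqi i 0
    rw [av_eq, (hcom i).q, (hcom i).t, map_sub, map_mul, hqi, h0]
  have key := pot_unique κ0 κ1 q hqR (fun i j => (p (e i)).qs ((σ (e i)).v j))
    (fun i => by
      show (p (e i)).qs 1 = 1
      exact map_one _)
    (fun i j => by
      refine le_trans ?_ hU
      exact mat_le σ p (e i) j)
    hdet (f - f') ((PK _).sub_mem (PK_mono hU h.mem) h'.mem)
    (by rw [MvPolynomial.coeff_sub, h.f0, h'.f0, sub_zero])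
    (fun i => by
      have h1 := h.ev (e i)
      have h2 := h'.ev (g (e i))
      rw [hσ, hg] at h2
      have e1 : (fun j => (p (e i)).qs (s0.q j)) = q := funext fun j => hqi _ j
      have e2 : (fun j => (p (e i)).qs ((σ (e i)).av j)) = fun j => q j - q 0 * (p (e i)).qs ((σ (e i)).v j) :=
        funext fun j => hav _ j
      rw [e1, e2] at h1 h2
      rw [map_sub, map_sub]
      have h3 := (Id V κ).sub_mem h2 h1
      refine Eq.subst (motive := fun x => x ∈ Id V κ) ?_ h3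
      ring)
  have h1 := congrArg (MvPolynomial.coeff m) key
  rw [MvPolynomial.coeff_map, MvPolynomial.coeff_zero, dQ_eq_zero, MvPolynomial.coeff_sub] at h1
  exact h1

omit [Fintype ι] [Fintype ι'] in
theorem Hyps.elim {s0 : VB S d k N} {σ : ι → VB S d k N} {σ' : ι' → VB S d k N} (hs : Hyps s0 σ) (hs' : Hyps s0 σ') :
    Hyps s0 (Sum.elim σ σ') where
  c := by
    rintro (i | i)
    · exact hs.c i
    · exact hs'.c i
  h := by
    rintro (i | i)
    · exact hs.h i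
    · exact hs'.h i

/-- AGREEMENT: two copies of a potential at the same point agree -/
theorem vpt_agree {s0 : VB S d k N} {σ : ι → VB S d k N} (hs : Hyps s0 σ) (hq : Rl s0.q ⊥) {θ ρ : ℝ}
    (θ0 : 0 < θ) (θ1 : θ ≤ 1) (ρ0 : 0 < ρ) (ρ1 : ρ ≤ 1) (hH : ∀ i j, H1P (σ i) (σ j) θ)
    (hu : UQ S s0.fv.z (s0.fv.iT ⊔ s0.fv.iY) ρ) {V : Sp} {p : ι → Pj V S} (e : Fin (d + 1) → ι)
    (hdet : IsUnit (frm σ p e).det) {K : ℕ} {n : Fin N} {f : MvPolynomial (Fin (d + 1)) (QS V)}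
    (h : VPt s0 σ p (θ * ρ) K n f) {R : Sp} (r1 r2 : Pj R V)
    (hd : IsStar s0.fQ (Sum.elim (fun i => r1.comp (p i)) (fun i => r2.comp (p i)) : ι ⊕ ι → Pj R S))
    (m : Fin (d + 1) →₀ ℕ) : r1.qs (f.coeff m) - r2.qs (f.coeff m) ∈ Id R (θ * ρ) := by
  have κ0 : 0 < θ * ρ := mul_pos θ0 ρ0
  have κ1 : θ * ρ ≤ 1 := by nlinarith
  have hH2 : ∀ i j : ι ⊕ ι, H1P ((Sum.elim σ σ : ι ⊕ ι → VB S d k N) i) ((Sum.elim σ σ : ι ⊕ ι → VB S d k N) j) θ := by
    rintro (i | i) (j | j)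
    · exact hH i j
    · exact hH i j
    · exact hH i j
    · exact hH i j
  obtain ⟨R', t, hF⟩ := exists_vpt (hs.elim hs) hq θ0 θ1 ρ0 ρ1 hH2 hu hd (fun i => Sum.inl (e i)) (frm_unit r1 hdet)
  obtain ⟨F, hF⟩ := hF n
  have u1 := vpt_unique (hs.elim hs) hq (hd.pull t) (Sum.inl : ι → ι ⊕ ι) (fun _ => rfl) (fun _ => rfl) e
    (frm_unit t (frm_unit r1 hdet)) κ0 κ1 ((h.pull κ1 r1).pull κ1 t) hF m
  have u2 := vpt_unique (hs.elim hs) hq (hd.pull t) (Sum.inr : ι → ι ⊕ ι) (fun _ => rfl) (fun _ => rfl) e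
    (frm_unit t (frm_unit r2 hdet)) κ0 κ1 ((h.pull κ1 r2).pull κ1 t) hF m
  rw [MvPolynomial.coeff_map, MvPolynomial.coeff_map] at u1 u2
  rw [← t.qs_mem_Id κ1, map_sub]
  have h3 := (Id R' (θ * ρ)).sub_mem u1 u2
  refine Eq.subst (motive := fun x => x ∈ Id R' (θ * ρ)) ?_ h3
  ring

/-- the coefficients of potentials are free -/
theorem vpt_free {s0 : VB S d k N} {σ : ι → VB S d k N} (hs : Hyps s0 σ) {V : Sp} {p : ι → Pj V S}
    (hp : IsStar s0.fQ p) (i0 : ι) {κ : ℝ} (κ1 : κ ≤ 1) {K : ℕ} {n : Fin N}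
    {f : MvPolynomial (Fin (d + 1)) (QS V)} (h : VPt s0 σ p κ K n f) {R : Sp} (r1 r2 : Pj R V)
    (hI : ∀ x y, I (r1.map x) (r2.map y) (r1.map ((p i0).map (vd s0.fQ 1))) = 0) (m : Fin (d + 1) →₀ ℕ)
    (ha : r1.qs (f.coeff m) - r2.qs (f.coeff m) ∈ Id R κ) : dg (f.coeff m) κ ≤ ⊥ := by
  obtain ⟨U, hU⟩ : ∃ U, U = vd (drs σ p) 1 := ⟨_, rfl⟩
  have h1 := drs_ind hs hp i0
  rw [← hU] at h1
  have h2 := r1.I_map U ((p i0).map (vd s0.fQ 1)) ⊥
  rw [h1, r1.map_bot] at h2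
  have h3 := ind_add h2 (hI U U) (by rw [sup_bot_eq])
  have h4 : I (r1.map U) (r2.map U) ⊥ = 0 := ind_of h3 le_rfl bot_le le_sup_left (by order)
  have hc : dg (f.coeff m) κ ≤ U := by
    rw [hU]
    exact (dg_mono _ κ1).trans (h.mem m)
  have h5 := dg_eq_of_sub_mem ha le_rfl κ1
  rw [r1.qs_dg, r2.qs_dg] at h5
  have h6 : r1.map (dg (f.coeff m) κ) ≤ ⊥ := by
    refine le_of_markov (A := r1.map U) (B := r2.map U) ?_ ?_ h4
    · exact (r1.map_mono hc).trans le_sup_left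
    · rw [h5]
      exact (r2.map_mono hc).trans le_sup_left
  rw [← r1.map_le, r1.map_bot]
  exact h6

/-- THE END, ALL WEIGHTS TWO: over a flat base, for vector valued top coordinates with deficit and full quotients and
lines of several types which span, the top coordinates are at depth `θ ρ` on every curve of every type equal to a free
polynomial of the base point up to a label of the curve -/
theorem end_vb (hk : 0 < k) (hN : 0 < N) {s0 : VB S d k N} (hq : Rl s0.q ⊥) {θ ρ : ℝ} (θ0 : 0 < θ) (θ1 : θ ≤ 1)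
    (ρ0 : 0 < ρ) (ρ1 : ρ ≤ 1) (hW : WVQ N ρ θ) (hu : UQ S s0.fv.z (s0.fv.iT ⊔ s0.fv.iY) ρ)
    {σ : Fin (d + 1) → VB S d k N} (hs : Hyps s0 σ) {W : Sp} {p : Fin (d + 1) → Pj W S} (hp : IsStar s0.fQ p)
    (hdet : IsUnit (mat σ p).det) :
    ∃ F : Fin N → MvPolynomial (Fin (d + 1)) (QS S), (∀ n, F n ∈ PK ⊥) ∧
      (∀ n, (F n).totalDegree ≤ 2 * k * (d + 1) + k) ∧
      ∀ s : VB S d k N, Com s0 s → s.Hyp → ∀ n, s0.fv.z n - s.c n 0 -
        (MvPolynomial.eval s0.q (F n) - MvPolynomial.eval s.av (F n)) ∈ Id S (θ * ρ) := by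
  classical
  have κ0 : 0 < θ * ρ := mul_pos θ0 ρ0
  have κ1 : θ * ρ ≤ 1 := by nlinarith
  have hH1 : ∀ s s' : VB S d k N, Com s0 s → Com s0 s' → s.Hyp → s'.Hyp → H1P s s' θ := by
    intro s s' c c' h h'
    refine h1M hk hN s s' ⟨c.symm.trans c', h, h'⟩ θ0 θ1 hW ?_
    rw [c.z, c.iT, c.iY]
    exact hu
  -- the star with one more line
  obtain ⟨R0, r1, r2, hc0, hI0, -⟩ := exists_copyS (fun a => (p 0).qs (s0.fQ a))
  have hd0 : IsStar s0.fQ (Sum.elim (fun i => r1.comp (p i)) (fun i => r2.comp (p i)) :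
      Fin (d + 1) ⊕ Fin (d + 1) → Pj R0 S) := by
    apply hp.double r1 r2
    · intro i a
      rw [hp.com i 0 a]
      exact hc0 a
    · intro i x y
      rw [hp.com_vd i 0, ← (p 0).qs_vd]
      exact hI0 x y
  obtain ⟨P', hP'⟩ : ∃ P' : Unit ⊕ Fin (d + 1) → Pj R0 S,
    P' = Sum.elim (fun _ => r2.comp (p 0)) (fun i => r1.comp (p i)) := ⟨_, rfl⟩
  have hstP : IsStar s0.fQ P' := by
    have h1 := sub_star hd0 (Sum.elim (fun _ : Unit => Sum.inr 0) (fun i => Sum.inl i) :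
      Unit ⊕ Fin (d + 1) → Fin (d + 1) ⊕ Fin (d + 1)) (by
        rintro (a | a) (b | b) hab
        · rfl
        · exact absurd hab (fun h => by cases h)
        · exact absurd hab (fun h => by cases h)
        · have h2 : (Sum.inl a : Fin (d + 1) ⊕ Fin (d + 1)) = Sum.inl b := hab
          rw [Sum.inl.inj h2])
    have h2 : (fun i : Unit ⊕ Fin (d + 1) => (Sum.elim (fun i => r1.comp (p i)) (fun i => r2.comp (p i)) :
        Fin (d + 1) ⊕ Fin (d + 1) → Pj R0 S) ((Sum.elim (fun _ : Unit => Sum.inr 0) (fun i => Sum.inl i) :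
        Unit ⊕ Fin (d + 1) → Fin (d + 1) ⊕ Fin (d + 1)) i)) = P' := by
      rw [hP']
      funext i
      rcases i with i | i <;> rfl
    rw [h2] at h1
    exact h1
  -- potentials of the frame
  have hstF : IsStar s0.fQ (fun i => r1.comp (p i)) := hp.pull r1
  have hdetF : IsUnit (frm σ (fun i => r1.comp (p i)) id).det := frm_unit r1 (e := id) hdet
  obtain ⟨V, t, hf⟩ := exists_vpt hs hq θ0 θ1 ρ0 ρ1
    (fun i j => hH1 _ _ (hs.c i) (hs.c j) (hs.h i) (hs.h j)) hu hstF id hdetF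
  choose f hf using hf
  obtain ⟨pV, hpV⟩ : ∃ pV : Fin (d + 1) → Pj V S, pV = fun i => t.comp (r1.comp (p i)) := ⟨_, rfl⟩
  obtain ⟨P0, hP0⟩ : ∃ P0 : Pj V S, P0 = t.comp (r2.comp (p 0)) := ⟨_, rfl⟩
  have hstV : IsStar s0.fQ (Sum.elim (fun _ : Unit => P0) pV) := by
    have h1 := hstP.pull t
    have h2 : (fun i => t.comp (P' i)) = Sum.elim (fun _ : Unit => P0) pV := by
      funext i
      rw [hP', hP0, hpV]
      rcases i with i | i <;> rfl
    rw [h2] at h1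
    exact h1
  have hstV' : IsStar s0.fQ pV := by
    rw [hpV]
    exact hstF.pull t
  have hdetV : IsUnit (frm σ pV id).det := by
    rw [hpV]
    exact frm_unit t hdetF
  rw [← hpV] at hf
  have hc1 : ∀ i a, (pV i).qs (s0.fQ a) = P0.qs (s0.fQ a) := fun i a => hstV.com (Sum.inr i) (Sum.inl ()) a
  have hv1 : ∀ i, (pV i).map (vd s0.fQ 1) = P0.map (vd s0.fQ 1) := fun i => hstV.com_vd (Sum.inr i) (Sum.inl ()) 1
  -- copies given the point of the additional line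
  obtain ⟨R, a1, a2, hcR, hIR, hdesc⟩ := exists_twoC P0 s0.fQ
  have hdd : IsStar s0.fQ (Sum.elim (fun i => a1.comp (pV i)) (fun i => a2.comp (pV i)) :
      Fin (d + 1) ⊕ Fin (d + 1) → Pj R S) := by
    apply hstV'.double a1 a2
    · intro i a
      rw [hc1]
      exact hcR a
    · intro i x y
      rw [hv1]
      exact hIR x y
  have hagr : ∀ n m, a1.qs ((f n).coeff m) - a2.qs ((f n).coeff m) ∈ Id R (θ * ρ) := fun n m =>
    vpt_agree hs hq θ0 θ1 ρ0 ρ1 (fun i j => hH1 _ _ (hs.c i) (hs.c j) (hs.h i) (hs.h j)) hu id hdetV (hf n) a1 a2 hdd m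
  have hfree : ∀ n m, dg ((f n).coeff m) (θ * ρ) ≤ P0.map ⊥ := fun n m => by
    rw [Pj.map_bot]
    exact vpt_free hs hstV' 0 κ1 (hf n) a1 a2 (fun x y => by rw [hv1]; exact hIR x y) m (hagr n m)
  have hg : ∀ n m, ∃ g : QS S, dg g 1 ≤ ⊥ ∧ P0.qs g - (f n).coeff m ∈ Id V (θ * ρ) := fun n m =>
    hdesc _ _ ⊥ κ0.le κ1 (hfree n m) (hagr n m)
  choose g hg1 hg2 using hg
  obtain ⟨F, hF⟩ : ∃ F : Fin N → MvPolynomial (Fin (d + 1)) (QS S),
    F = fun n => ∑ m ∈ (f n).support, MvPolynomial.monomial m (g n m) := ⟨_, rfl⟩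
  have hco : ∀ n m, (F n).coeff m = if m ∈ (f n).support then g n m else 0 := by
    intro n m
    rw [hF]
    beta_reduce
    rw [MvPolynomial.coeff_sum]
    simp only [MvPolynomial.coeff_monomial]
    rw [Finset.sum_ite_eq']
  have hFf : ∀ n m, P0.qs ((F n).coeff m) - (f n).coeff m ∈ Id V (θ * ρ) := by
    intro n m
    rw [hco]
    by_cases hm : m ∈ (f n).support
    · rw [if_pos hm]
      exact hg2 n m
    · rw [if_neg hm, map_zero, MvPolynomial.notMem_support_iff.mp hm, sub_zero]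
      exact (Id V (θ * ρ)).zero_mem
  refine ⟨F, ?_, ?_, ?_⟩
  · intro n m
    rw [hco]
    by_cases hm : m ∈ (f n).support
    · rw [if_pos hm]
      exact hg1 n m
    · rw [if_neg hm]
      exact (Kn S 1 le_rfl ⊥).zero_mem
  · intro n
    refine (degree_of_support (P := f n) ?_).trans (hf n).deg
    intro m hm
    rw [MvPolynomial.mem_support_iff, hco] at hm
    by_contra hc
    rw [if_neg hc] at hm
    exact hm rfl
  -- a line of any type
  intro s hcs hhs n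
  have hs1 : Hyps s0 (Sum.elim (fun _ : Unit => s) σ) := Hyps.elim ⟨fun _ => hcs, fun _ => hhs⟩ hs
  obtain ⟨V', t', hf'⟩ := exists_vpt hs1 hq θ0 θ1 ρ0 ρ1
    (fun i j => hH1 _ _ (hs1.c i) (hs1.c j) (hs1.h i) (hs1.h j)) hu hstV (fun i => Sum.inr i) hdetV
  obtain ⟨f', hf'⟩ := hf' n
  have huq := vpt_unique hs1 hq (hstV.pull t') (Sum.inr : Fin (d + 1) → Unit ⊕ Fin (d + 1)) (fun _ => rfl)
    (fun _ => rfl) id (frm_unit t' hdetV) κ0 κ1 ((hf n).pull κ1 t') hf'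
  have hev := hf'.ev (Sum.inl ())
  have hev2 : (t'.comp P0).qs (s0.fv.z n - s.c n 0) -
      (MvPolynomial.eval (fun j => (t'.comp P0).qs (s0.q j)) f' -
        MvPolynomial.eval (fun j => (t'.comp P0).qs (s.av j)) f') ∈ Id V' (θ * ρ) := hev
  -- the polynomial from below
  have hcoef : ∀ m, (MvPolynomial.map (t'.comp P0).qs (F n)).coeff m - f'.coeff m ∈ Id V' (θ * ρ) := by
    intro m
    have h1 := huq m
    rw [MvPolynomial.coeff_map] at h1
    have h2 := (t'.qs_mem_Id κ1).mpr (hFf n m)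
    rw [map_sub] at h2
    rw [MvPolynomial.coeff_map, Pj.comp_qs]
    have h3 := (Id V' (θ * ρ)).add_mem h2 h1
    refine Eq.subst (motive := fun x => x ∈ Id V' (θ * ρ)) ?_ h3
    ring
  have e1 := eval_congr (Id V' (θ * ρ)) _ _ (fun j => (t'.comp P0).qs (s0.q j)) hcoef
  have e2 := eval_congr (Id V' (θ * ρ)) _ _ (fun j => (t'.comp P0).qs (s.av j)) hcoef
  rw [← qs_eval] at e1 e2
  rw [← (t'.comp P0).qs_mem_Id κ1]
  have h0 : (t'.comp P0).qs (s0.fv.z n - s.c n 0 - (MvPolynomial.eval s0.q (F n) - MvPolynomial.eval s.av (F n))) =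
      (t'.comp P0).qs (s0.fv.z n - s.c n 0) - ((t'.comp P0).qs (MvPolynomial.eval s0.q (F n)) -
        (t'.comp P0).qs (MvPolynomial.eval s.av (F n))) := by
    rw [map_sub, map_sub ((t'.comp P0).qs) (MvPolynomial.eval s0.q (F n))]
  rw [h0]
  have h3 := (Id V' (θ * ρ)).sub_mem hev2 ((Id V' (θ * ρ)).sub_mem e1 e2)
  refine Eq.subst (motive := fun x => x ∈ Id V' (θ * ρ)) ?_ h3
  ring

/-- THE END in terms of labels: the top coordinates minus free polynomials of the base point are at depth `θ ρ` known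
to the point and to every curve of every type -/
theorem end_known (hk : 0 < k) (hN : 0 < N) {s0 : VB S d k N} (hq : Rl s0.q ⊥) {θ ρ : ℝ} (θ0 : 0 < θ) (θ1 : θ ≤ 1)
    (ρ0 : 0 < ρ) (ρ1 : ρ ≤ 1) (hW : WVQ N ρ θ) (hu : UQ S s0.fv.z (s0.fv.iT ⊔ s0.fv.iY) ρ)
    {σ : Fin (d + 1) → VB S d k N} (hs : Hyps s0 σ) {W : Sp} {p : Fin (d + 1) → Pj W S} (hp : IsStar s0.fQ p)
    (hdet : IsUnit (mat σ p).det) :
    ∃ F : Fin N → MvPolynomial (Fin (d + 1)) (QS S), (∀ n, F n ∈ PK ⊥) ∧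
      (∀ n, (F n).totalDegree ≤ 2 * k * (d + 1) + k) ∧
      (∀ n, dg (s0.fv.z n - MvPolynomial.eval s0.q (F n)) (θ * ρ) ≤ s0.iP) ∧
      ∀ s : VB S d k N, Com s0 s → s.Hyp → ∀ n,
        dg (s0.fv.z n - MvPolynomial.eval s0.q (F n)) (θ * ρ) ≤ s.fv.iL ⊔ s.fv.iB := by
  have κ1 : θ * ρ ≤ 1 := by nlinarith
  obtain ⟨F, h1, h2, h3⟩ := end_vb hk hN hq θ0 θ1 ρ0 ρ1 hW hu hs hp hdet
  refine ⟨F, h1, h2, fun n => ?_, fun s hc hh n => ?_⟩
  · refine (dg_mono _ κ1).trans ?_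
    apply (Kn S 1 le_rfl s0.iP).sub_mem
    · have h4 : dg (s0.fv.z n) 1 ≤ s0.fv.iZ := dg_le_vd s0.fv.z 1 n
      exact h4.trans (le_sup_right.trans le_sup_right)
    · refine eval_mem (h1 n) _ bot_le fun j => ?_
      have h4 := dg_le_vd s0.fQ 1 (Sum.inl j)
      rw [s0.vd_fQ] at h4
      exact h4
  · have h4 : s0.fv.z n - MvPolynomial.eval s0.q (F n) - (s.c n 0 - MvPolynomial.eval s.av (F n)) ∈ Id S (θ * ρ) := by
      have h5 := h3 s hc hh n
      refine Eq.subst (motive := fun x => x ∈ Id S (θ * ρ)) ?_ h5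
      ring
    rw [dg_eq_of_sub_mem h4 le_rfl κ1]
    refine (dg_mono _ κ1).trans ?_
    apply (Kn S 1 le_rfl (s.fv.iL ⊔ s.fv.iB)).sub_mem
    · exact (dg_le_vd s.fv.b 1 n).trans le_sup_right
    · refine eval_mem (h1 n) _ bot_le fun j => ?_
      refine le_trans ?_ (le_sup_left : s.fv.iL ≤ _)
      induction j using Fin.cases with
      | zero => exact (Kn S 1 le_rfl _).zero_mem
      | succ j => exact (dg_le_vd s.a 1 j).trans le_sup_left

/-- information known to the point and to all curves of all types is trivial -/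
def NoLab (s0 : VB S d k N) (Ty : Set (VB S d k N)) : Prop :=
  ∀ A : S.L, A ≤ s0.iP → (∀ s ∈ Ty, A ≤ s.fv.iL ⊔ s.fv.iB) → A ≤ ⊥

/-- without labels: the top coordinates are free polynomials of the base point at depth `θ ρ` -/
theorem end_rel (hk : 0 < k) (hN : 0 < N) {s0 : VB S d k N} (hq : Rl s0.q ⊥) {θ ρ : ℝ} (θ0 : 0 < θ) (θ1 : θ ≤ 1)
    (ρ0 : 0 < ρ) (ρ1 : ρ ≤ 1) (hW : WVQ N ρ θ) (hu : UQ S s0.fv.z (s0.fv.iT ⊔ s0.fv.iY) ρ)
    (Ty : Set (VB S d k N)) (hTy : ∀ s ∈ Ty, Com s0 s ∧ s.Hyp) (hL : NoLab s0 Ty)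
    {σ : Fin (d + 1) → VB S d k N} (hσ : ∀ i, σ i ∈ Ty) {W : Sp} {p : Fin (d + 1) → Pj W S} (hp : IsStar s0.fQ p)
    (hdet : IsUnit (mat σ p).det) :
    ∃ F : Fin N → MvPolynomial (Fin (d + 1)) (QS S), (∀ n, F n ∈ PK ⊥) ∧
      (∀ n, (F n).totalDegree ≤ 2 * k * (d + 1) + k) ∧
      ∀ n, dg (s0.fv.z n - MvPolynomial.eval s0.q (F n)) (θ * ρ) ≤ ⊥ := by
  obtain ⟨F, h1, h2, h3, h4⟩ := end_known hk hN hq θ0 θ1 ρ0 ρ1 hW hu
    (σ := σ) ⟨fun i => (hTy _ (hσ i)).1, fun i => (hTy _ (hσ i)).2⟩ hp hdet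
  exact ⟨F, h1, h2, fun n => hL _ (h3 n) fun s hs => h4 s (hTy s hs).1 (hTy s hs).2 n⟩

/-- two or more top coordinates: CONTRADICTION -/
theorem end_false (hk : 0 < k) (hN : 2 ≤ N) {s0 : VB S d k N} (hq : Rl s0.q ⊥) {θ ρ : ℝ} (θ0 : 0 < θ) (θ1 : θ ≤ 1)
    (ρ0 : 0 < ρ) (ρ1 : ρ ≤ 1) (hW : WVQ N ρ θ) (hu : UQ S s0.fv.z (s0.fv.iT ⊔ s0.fv.iY) ρ)
    (Ty : Set (VB S d k N)) (hTy : ∀ s ∈ Ty, Com s0 s ∧ s.Hyp) (hL : NoLab s0 Ty)
    {σ : Fin (d + 1) → VB S d k N} (hσ : ∀ i, σ i ∈ Ty) {W : Sp} {p : Fin (d + 1) → Pj W S} (hp : IsStar s0.fQ p)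
    (hdet : IsUnit (mat σ p).det) : False := by
  have κ0 : 0 < θ * ρ := mul_pos θ0 ρ0
  have κ1 : θ * ρ ≤ 1 := by nlinarith
  obtain ⟨F, h1, -, h3⟩ := end_rel hk (by omega) hq θ0 θ1 ρ0 ρ1 hW hu Ty hTy hL hσ hp hdet
  refine hu.not_known (by rw [Fintype.card_fin]; exact hN) κ0 κ1 (Pj.id S) ?_
  rw [vd_le]
  intro n
  rw [Pj.id_qs, Pj.id_map, ← s0.vd_q]
  have h4 : s0.fv.z n = (s0.fv.z n - MvPolynomial.eval s0.q (F n)) + MvPolynomial.eval s0.q (F n) := by ring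
  rw [h4]
  apply (Kn S (θ * ρ) κ1 _).add_mem
  · exact (h3 n).trans bot_le
  · refine (dg_mono _ κ1).trans ?_
    exact eval_mem (h1 n) _ bot_le fun j => dg_le_vd s0.q 1 j

end

end Pool.Agent.Helper50.VM
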