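import Pool.Agent.Helper50.VM.Pot

/-! Exact entropy calculus: potentials of stars of curved lines of several types with vector valued top coordinates
exist at depth `θ ρ` (slopes at depth `θ`, loops of helper38 at depth `θ ρ`). -/

set_option autoImplicit false

namespace Pool.Agent.Helper50.VM

open Pool.Agent.Helper31.EC QS Pool.Agent.Helper38.NS Pool.Agent.Helper99.EC Pool.Agent.Helper96.FLT
open Pool.Agent.Helper50.VC (VB)

noncomputable section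

section Hp

variable {A B : Type*} [CommRing A] [CommRing B] {d k : ℕ}

/-- the primitive `∑ X_0^(j+1) P_j` -/
def Hp (P : Fin k → MvPolynomial (Fin (d + 1)) A) : MvPolynomial (Fin (d + 1)) A :=
  ∑ j : Fin k, MvPolynomial.X 0 ^ ((j : ℕ) + 1) * P j

theorem eval_Hp (P : Fin k → MvPolynomial (Fin (d + 1)) A) (x : Fin (d + 1) → A) :
    MvPolynomial.eval x (Hp P) = ∑ j : Fin k, x 0 ^ ((j : ℕ) + 1) * MvPolynomial.eval x (P j) := by
  unfold Hp
  rw [map_sum]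
  apply Finset.sum_congr rfl
  intro j _
  rw [map_mul, map_pow, MvPolynomial.eval_X]

theorem map_Hp (φ : A →+* B) (P : Fin k → MvPolynomial (Fin (d + 1)) A) :
    MvPolynomial.map φ (Hp P) = Hp (fun j => MvPolynomial.map φ (P j)) := by
  unfold Hp
  rw [map_sum]
  apply Finset.sum_congr rfl
  intro j _
  rw [map_mul, map_pow, MvPolynomial.map_X]

theorem Hp_mem {W : Sp} {C : W.L} (P : Fin k → MvPolynomial (Fin (d + 1)) (QS W)) (h : ∀ j, P j ∈ PK C) :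
    Hp P ∈ PK C :=
  (PK C).sum_mem fun j _ => (PK C).mul_mem ((PK C).pow_mem (X_mem C 0) _) (h j)

theorem Hp_deg {D : ℕ} (P : Fin k → MvPolynomial (Fin (d + 1)) A)
    (h : ∀ j, (P j).totalDegree ≤ D) : (Hp P).totalDegree ≤ D + k := by
  unfold Hp
  apply MvPolynomial.totalDegree_finsetSum_le
  intro j _
  refine (MvPolynomial.totalDegree_mul _ _).trans ?_
  have h1 := MvPolynomial.totalDegree_pow (MvPolynomial.X 0 : MvPolynomial (Fin (d + 1)) A) ((j : ℕ) + 1)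
  have h2 : (MvPolynomial.X 0 : MvPolynomial (Fin (d + 1)) A).totalDegree ≤ 1 := by
    rcases subsingleton_or_nontrivial A with h | h
    · have e : (MvPolynomial.X 0 : MvPolynomial (Fin (d + 1)) A) = 0 := Subsingleton.elim _ _
      rw [e, MvPolynomial.totalDegree_zero]
      exact Nat.zero_le _
    · rw [MvPolynomial.totalDegree_X]
  have h3 := h j
  have h4 : (j : ℕ) + 1 ≤ k := j.isLt
  have h5 : ((j : ℕ) + 1) * (MvPolynomial.X 0 : MvPolynomial (Fin (d + 1)) A).totalDegree ≤ ((j : ℕ) + 1) * 1 :=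
    Nat.mul_le_mul_left _ h2
  omega

end Hp

variable {S : Sp} {d k N : ℕ} {ι : Type} [Fintype ι]

/-- the base line starts at height zero -/
theorem av_eq (s : VB S d k N) (j : Fin (d + 1)) : s.av j = s.q j - s.t * s.v j := by
  rw [s.q_eq]
  ring

/-- the top coordinate along the line -/
theorem z_sub (s : VB S d k N) (n : Fin N) :
    s.fv.z n - s.c n 0 = ∑ m : Fin k, s.t ^ ((m : ℕ) + 1) * s.c n m.succ := by
  rw [s.z_eq]
  unfold pe
  rw [Fin.sum_univ_succ]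
  simp only [Fin.val_zero, pow_zero, mul_one, Fin.val_succ]
  rw [add_sub_cancel_left]
  exact Finset.sum_congr rfl fun j _ => mul_comm _ _

/-- POTENTIAL of a star at depth `κ`: a polynomial with coefficients known to the directions whose increments from
height zero along every line are the increments of the top coordinate -/
structure VPt (s0 : VB S d k N) (σ : ι → VB S d k N) {V : Sp} (p : ι → Pj V S) (κ : ℝ) (K : ℕ) (n : Fin N)
    (f : MvPolynomial (Fin (d + 1)) (QS V)) : Prop where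
  mem : f ∈ PK (vd (drs σ p) 1)
  f0 : f.coeff 0 = 0
  deg : f.totalDegree ≤ K
  ev : ∀ i, (p i).qs (s0.fv.z n - (σ i).c n 0) - (MvPolynomial.eval (fun j => (p i).qs (s0.q j)) f -
    MvPolynomial.eval (fun j => (p i).qs ((σ i).av j)) f) ∈ Id V κ

theorem VPt.pull {s0 : VB S d k N} {σ : ι → VB S d k N} {V : Sp} {p : ι → Pj V S} {κ : ℝ} (hκ : κ ≤ 1) {K : ℕ}
    {n : Fin N} {f : MvPolynomial (Fin (d + 1)) (QS V)} (h : VPt s0 σ p κ K n f) {R : Sp} (r : Pj R V) :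
    VPt s0 σ (fun i => r.comp (p i)) κ K n (MvPolynomial.map r.qs f) where
  mem := by
    have h1 := map_PK r h.mem
    rw [← r.qs_vd] at h1
    have h2 : vd (fun i => r.qs (drs σ p i)) 1 = vd (drs σ fun i => r.comp (p i)) 1 := by
      apply vd_congr
      intro a
      show r.qs ((p a.1).qs ((σ a.1).x a.2)) = (r.comp (p a.1)).qs ((σ a.1).x a.2)
      rw [Pj.comp_qs]
    rw [← h2]
    exact h1
  f0 := by rw [MvPolynomial.coeff_map, h.f0, map_zero]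
  deg := (totalDegree_map_le _ _).trans h.deg
  ev i := by
    have h1 := (r.qs_mem_Id hκ).mpr (h.ev i)
    have h2 : ∀ a b c : QS V, r.qs (a - (b - c)) = r.qs a - (r.qs b - r.qs c) := fun a b c => by
      rw [map_sub, map_sub]
    rw [h2, qs_eval, qs_eval] at h1
    simp only [Pj.comp_qs]
    exact h1

/-- POTENTIALS EXIST at depth `θ ρ` -/
theorem exists_vpt {s0 : VB S d k N} {σ : ι → VB S d k N} (hs : Hyps s0 σ) (hq : Rl s0.q ⊥) {θ ρ : ℝ}
    (θ0 : 0 < θ) (θ1 : θ ≤ 1) (ρ0 : 0 < ρ) (ρ1 : ρ ≤ 1) (hH : ∀ i j, H1P (σ i) (σ j) θ)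
    (hu : UQ S s0.fv.z (s0.fv.iT ⊔ s0.fv.iY) ρ) {W : Sp} {p : ι → Pj W S} (hp : IsStar s0.fQ p)
    (e : Fin (d + 1) → ι) (hdet : IsUnit (frm σ p e).det) :
    ∃ (V : Sp) (t : Pj V W), ∀ n, ∃ f : MvPolynomial (Fin (d + 1)) (QS V),
      VPt s0 σ (fun i => t.comp (p i)) (θ * ρ) (2 * k * (d + 1) + k) n f := by
  classical
  obtain ⟨V, t0, hsl⟩ := slopesG hs hq θ0.le θ1 hH hp e hdet (e 0) W (Pj.id W)
  obtain ⟨t, ht⟩ : ∃ t : Pj V W, t = t0.comp (Pj.id W) := ⟨_, rfl⟩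
  rw [← ht] at hsl
  refine ⟨V, t, ?_⟩
  obtain ⟨p1, hp1⟩ : ∃ p1 : ι → Pj V S, p1 = fun i => t.comp (p i) := ⟨_, rfl⟩
  have hst : IsStar s0.fQ p1 := by rw [hp1]; exact hp.pull t
  have hdet1 : IsUnit (frm σ p1 e).det := by rw [hp1]; exact frm_unit t hdet
  rw [← hp1]
  choose P hPm hPd hPe using hsl
  obtain ⟨i0, hi0⟩ : ∃ i0, i0 = e 0 := ⟨_, rfl⟩
  obtain ⟨G, hG⟩ : ∃ G : ι × Fin d → QS V, G = drs σ p1 := ⟨_, rfl⟩
  have hUG : t.map (vd (drs σ p) 1) = vd G 1 := by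
    rw [← t.qs_vd, hG]
    apply vd_congr
    intro a
    rw [hp1]
    show t.qs ((p a.1).qs ((σ a.1).x a.2)) = (t.comp (p a.1)).qs ((σ a.1).x a.2)
    rw [Pj.comp_qs]
  rw [hUG] at hPm
  obtain ⟨q', hq'⟩ : ∃ q' : Fin (d + 1) → QS V, q' = fun a => (p1 i0).qs (s0.q a) := ⟨_, rfl⟩
  have hqi : ∀ i a, (p1 i).qs (s0.q a) = q' a := by
    intro i a
    rw [hq']
    exact hst.com i i0 (Sum.inl a)
  have hqif : ∀ i, (fun a => (p1 i).qs (s0.q a)) = q' := fun i => funext fun a => hqi i a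
  have hq0 : ∀ i, (p1 i).qs s0.t = q' 0 := fun i => hqi i 0
  obtain ⟨z', hz'⟩ : ∃ z' : Fin N → QS V, z' = fun n => (p1 i0).qs (s0.fv.z n) := ⟨_, rfl⟩
  have hzi : ∀ i n, (p1 i).qs (s0.fv.z n) = z' n := by
    intro i n
    rw [hz']
    exact hst.com i i0 (Sum.inr n)
  have hPe1 : ∀ n i m, (p1 i).qs ((σ i).c n m.succ) - MvPolynomial.eval q' (P n i m) ∈ Id V θ := by
    intro n i m
    have h1 := hPe n i m
    have h2 : (fun j => t.qs ((p (e 0)).qs (s0.q j))) = q' := by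
      funext j
      rw [hq', hp1, hi0]
      show _ = (t.comp (p (e 0))).qs (s0.q j)
      rw [Pj.comp_qs]
    have h3 : t.qs ((p i).qs ((σ i).c n m.succ)) = (p1 i).qs ((σ i).c n m.succ) := by
      rw [hp1]
      show _ = (t.comp (p i)).qs ((σ i).c n m.succ)
      rw [Pj.comp_qs]
    rw [h2, h3] at h1
    exact h1
  have hqR : Rl q' (vd G 1) := by
    rw [hq', hG]
    exact q_rl hs hq hst i0
  have hvU : ∀ i a, dg ((p1 i).qs ((σ i).v a)) 1 ≤ vd G 1 := by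
    intro i a
    rw [hG]
    exact mat_le σ p1 i a
  have hav : ∀ i a, (p1 i).qs ((σ i).av a) = q' a - q' 0 * (p1 i).qs ((σ i).v a) := by
    intro i a
    rw [av_eq, (hs.c i).q, (hs.c i).t, map_sub, map_mul, hqi, hq0]
  have hav0 : ∀ i, (p1 i).qs ((σ i).av 0) = 0 := by
    intro i
    show (p1 i).qs 0 = 0
    exact map_zero _
  -- the increments
  have hzc : ∀ i n, z' n - (p1 i).qs ((σ i).c n 0) =
      ∑ m : Fin k, q' 0 ^ ((m : ℕ) + 1) * (p1 i).qs ((σ i).c n m.succ) := by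
    intro i n
    have h1 : (σ i).fv.z n - (σ i).c n 0 = ∑ m : Fin k, (σ i).t ^ ((m : ℕ) + 1) * (σ i).c n m.succ := z_sub _ n
    rw [(hs.c i).z, (hs.c i).t] at h1
    have h2 := congrArg (p1 i).qs h1
    rw [map_sub, map_sum, hzi] at h2
    rw [h2]
    apply Finset.sum_congr rfl
    intro m _
    rw [map_mul, map_pow, hq0]
  have hzP : ∀ i n, z' n - (p1 i).qs ((σ i).c n 0) - MvPolynomial.eval q' (Hp (P n i)) ∈ Id V θ := by
    intro i n
    rw [hzc, eval_Hp, ← Finset.sum_sub_distrib]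
    apply (Id V θ).sum_mem
    intro m _
    rw [← mul_sub]
    exact (Id V θ).mul_mem_left _ (hPe1 n i m)
  have hck : ∀ i n m, dg ((p1 i).qs ((σ i).c n m)) 1 ≤ (p1 i).map ((σ i).fv.iL ⊔ (σ i).fv.iB) := by
    intro i n m
    rw [(p1 i).qs_dg]
    apply (p1 i).map_mono
    exact (dg_le_vd (σ i).cf 1 (n, m)).trans (hs.h i).vc
  have havk : ∀ i a, dg ((p1 i).qs ((σ i).av a)) 1 ≤ (p1 i).map ((σ i).fv.iL ⊔ (σ i).fv.iB) := by
    intro i a
    rw [(p1 i).qs_dg]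
    apply (p1 i).map_mono
    refine le_trans ?_ le_sup_left
    induction a using Fin.cases with
    | zero => exact (Kn S 1 le_rfl _).zero_mem
    | succ a => exact (dg_le_vd (σ i).a 1 a).trans le_sup_left
  have hcF : ∀ i n (m : Fin k), dg ((p1 i).qs ((σ i).c n m.succ)) 1 ≤ vd q' 1 ⊔ vd G 1 := by
    intro i n m
    rw [(p1 i).qs_dg]
    refine ((p1 i).map_mono ((hs.h i).hF n m)).trans ?_
    refine (line_le hs hst i0 i).trans ?_
    rw [← hG]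
    refine sup_le ?_ le_sup_right
    rw [vd_le]
    intro l
    have h1 : (p1 i0).qs (s0.q l) = q' l := hqi i0 l
    have h2 : (p1 i0).qs (s0.q 0) = q' 0 := hqi i0 0
    rw [h1, h2]
    apply (Kn V 1 le_rfl _).sub_mem
    · exact (dg_le_vd q' 1 l).trans le_sup_left
    · apply (Kn V 1 le_rfl _).mul_mem
      · exact (dg_le_vd q' 1 0).trans le_sup_left
      · exact (hvU i l).trans le_sup_right
  -- lines in the order of `Fin`
  obtain ⟨M, hM⟩ : ∃ M, M = Fintype.card ι := ⟨_, rfl⟩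
  obtain ⟨τ⟩ : Nonempty (Fin M ≃ ι) := ⟨(Fintype.equivFinOfCardEq hM.symm).symm⟩
  obtain ⟨Lf, hLf⟩ : ∃ Lf : Fin (d + 1 + M) → ι, Lf = Fin.append e τ := ⟨_, rfl⟩
  have hN : d + 1 ≤ d + 1 + M := Nat.le_add_right _ _
  have hLe : ∀ i : Fin (d + 1), Lf (Fin.castLE hN i) = e i := by
    intro i
    rw [hLf]
    have : Fin.castLE hN i = Fin.castAdd M i := rfl
    rw [this, Fin.append_left]
  have hLs : ∀ i : ι, ∃ l, Lf l = i := by
    intro i
    refine ⟨Fin.natAdd (d + 1) (τ.symm i), ?_⟩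
    rw [hLf, Fin.append_right, Equiv.apply_symm_apply]
  have hdetL : IsUnit (Matrix.det (Matrix.of fun i j : Fin (d + 1) =>
      (fun l a => (p1 (Lf l)).qs ((σ (Lf l)).v a)) (Fin.castLE hN i) j)) := by
    have h1 : (Matrix.of fun i j : Fin (d + 1) =>
      (fun l a => (p1 (Lf l)).qs ((σ (Lf l)).v a)) (Fin.castLE hN i) j) = frm σ p1 e := by
      ext i j
      show (p1 (Lf (Fin.castLE hN i))).qs ((σ (Lf (Fin.castLE hN i))).v j) = (p1 (e i)).qs ((σ (e i)).v j)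
      rw [hLe]
    rw [h1]
    exact hdet1
  obtain ⟨H, hH'⟩ : ∃ H : Fin N → ι → MvPolynomial (Fin (d + 1)) (QS (dp V θ θ0)),
    ∀ n i, H n i = MvPolynomial.map (dQ θ θ0 θ1) (Hp (P n i)) := ⟨_, fun _ _ => rfl⟩
  have hHm : ∀ n i, H n i ∈ PK (dL θ θ0 (vd G 1)) := by
    intro n i
    rw [hH']
    exact map_dQ_PK (Hp_mem _ (fun j => hPm n i j)) θ θ0 θ1
  have hdH : ∀ n i, (H n i).totalDegree ≤ 2 * k * (d + 1) + k := by
    intro n i
    rw [hH']
    exact (totalDegree_map_dQ _ θ θ0 θ1).trans (Hp_deg _ (fun j => hPd n i j))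
  have htime : ∀ i, Helper31.EC.h (dg (q' 0) 1) (vd (fun a => q' a - q' 0 * (p1 i).qs ((σ i).v a)) 1 ⊔
      vd (fun n => (p1 i).qs ((σ i).c n 0)) 1 ⊔ vd G 1) = 1 := by
    intro i
    apply le_antisymm (h_dg_le_one _ _)
    have h1 := ht_line hs hst i
    have h2 : dg (q' 0) 1 = (p1 i).map s0.fv.iT := by
      rw [← hq0 i, (p1 i).qs_dg]
      rfl
    rw [h2]
    refine h1.ge.trans (h_anti ?_)
    rw [← hG]
    apply sup_le_sup_right
    apply sup_le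
    · rw [vd_le]
      intro a
      rw [← hav]
      exact havk i a
    · rw [vd_le]
      intro n
      exact hck i n 0
  have hvq : vd q' 1 = (p1 i0).map (s0.fv.iT ⊔ s0.fv.iY) := by
    rw [← s0.vd_q, ← (p1 i0).qs_vd, hq']
  have huV : UQ V z' (vd q' 1) ρ := by
    have h1 := hu.pull (p1 i0)
    rw [hvq, hz']
    exact h1
  have hNR : NRu (dp V θ θ0) (fun n => dQ θ θ0 θ1 (z' n)) (dL θ θ0 (vd q' 1)) ρ := (huV.dp θ θ0 θ1).nru ρ1
  have hzG : I (vd z' 1) (vd G 1) (vd q' 1) = 0 := by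
    have h1 := drs_ind hs hst i0
    rw [← hG] at h1
    have h2 : vd q' 1 ⊔ vd z' 1 = (p1 i0).map (vd s0.fQ 1) := by
      rw [← (p1 i0).qs_vd, hq', hz', ← vd_sum]
      apply vd_congr
      intro a
      rcases a with a | a <;> rfl
    rw [← h2] at h1
    exact ind_symm (ind_of h1 bot_le (by order) (by order) (by order))
  intro n
  obtain ⟨f', hf', hf0, hpot⟩ := loopW G (q' 0) q' z' θ0 θ1 (fun l a => (p1 (Lf l)).qs ((σ (Lf l)).v a))
    (fun l n => (p1 (Lf l)).qs ((σ (Lf l)).c n 0)) (fun n l => H n (Lf l)) hN hqR (fun l a => hvU _ a)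
    (fun n l => hHm n _) hdetL (fun l => htime (Lf l))
    (fun l n => by
      rw [hzc]
      apply (Kn V 1 le_rfl _).sum_mem
      intro m _
      apply (Kn V 1 le_rfl _).mul_mem
      · apply (Kn V 1 le_rfl _).pow_mem
        exact (dg_le_vd q' 1 0).trans le_sup_left
      · exact hcF _ n m)
    (fun l n => by
      have h1 := hzP (Lf l) n
      rw [← dQ_eq_zero θ θ0 θ1, map_sub, sub_eq_zero, map_eval'] at h1
      rw [hH']
      exact h1)
    ρ0 ρ1 hNR hzG n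
  have hpot' : ∀ i, PotH f' (fun a => dQ ρ ρ0 ρ1 (dQ θ θ0 θ1 ((p1 i).qs ((σ i).v a))))
      (MvPolynomial.map (dQ ρ ρ0 ρ1) (H n i)) := by
    intro i
    obtain ⟨l, hl⟩ := hLs i
    have := hpot l
    rw [hl] at this
    exact this
  have hqRR := rl_dp (rl_dp hqR θ θ0 θ1) ρ ρ0 ρ1
  have hdd : IsUnit (Matrix.det (Matrix.of fun i j : Fin (d + 1) =>
      dQ ρ ρ0 ρ1 (dQ θ θ0 θ1 (frm σ p1 e i j)))) := by
    have h1 := (hdet1.map (dQ θ θ0 θ1)).map (dQ ρ ρ0 ρ1)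
    rw [RingHom.map_det, RingHom.map_det] at h1
    exact h1
  obtain ⟨-, hdeg⟩ := potH_known (A := dL ρ ρ0 (dL θ θ0 (vd G 1))) (B := dL ρ ρ0 (dL θ θ0 (vd G 1))) le_rfl f' hf' hf0
    (Matrix.of fun i j : Fin (d + 1) => dQ ρ ρ0 ρ1 (dQ θ θ0 θ1 (frm σ p1 e i j)))
    (fun i j => dQ_le (dQ_le (hvU (e i) j) θ θ0 θ1) ρ ρ0 ρ1) hdd
    (fun i => MvPolynomial.map (dQ ρ ρ0 ρ1) (H n (e i))) (fun i => map_dQ_PK (hHm n _) ρ ρ0 ρ1)
    (2 * k * (d + 1) + k) (fun i => (totalDegree_map_dQ _ ρ ρ0 ρ1).trans (hdH n _)) (fun i => hpot' (e i))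
    (fun j => dQ ρ ρ0 ρ1 (dQ θ θ0 θ1 (q' j))) hqRR
  -- the lift
  obtain ⟨f1, hf1, hf1m, hf1s⟩ := lift_poly ρ1 f' hf'
  obtain ⟨f, hf, hfm, hfs⟩ := lift_poly θ1 f1 hf1m
  have hf2 : f' = MvPolynomial.map (dQ ρ ρ0 ρ1) (MvPolynomial.map (dQ θ θ0 θ1) f) := by rw [hf, hf1]
  have hf00 : f.coeff 0 = 0 := by
    rw [← MvPolynomial.notMem_support_iff]
    intro hc
    have h1 := hf1s (hfs hc)
    rw [MvPolynomial.mem_support_iff] at h1
    exact h1 hf0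
  refine ⟨f, ⟨?_, hf00, ?_, ?_⟩⟩
  · rw [← hG]
    exact hfm
  · exact ((degree_of_support hfs).trans (degree_of_support hf1s)).trans hdeg
  · intro i
    have h0 : ∀ a b c : QS V, dQ ρ ρ0 ρ1 (dQ θ θ0 θ1 (a - (b - c))) = dQ ρ ρ0 ρ1 (dQ θ θ0 θ1 a) -
        (dQ ρ ρ0 ρ1 (dQ θ θ0 θ1 b) - dQ ρ ρ0 ρ1 (dQ θ θ0 θ1 c)) := fun a b c => by
      rw [map_sub, map_sub, map_sub, map_sub]
    have hz0 : (p1 i).qs (s0.fv.z n - (σ i).c n 0) = z' n - (p1 i).qs ((σ i).c n 0) := by rw [map_sub, hzi]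
    rw [← dQ_mem θ θ0 θ1 ρ1, ← dQ_eq_zero ρ ρ0 ρ1, hqif, hz0, h0, map_eval' (dQ θ θ0 θ1), map_eval' (dQ θ θ0 θ1),
      map_eval' (dQ ρ ρ0 ρ1), map_eval' (dQ ρ ρ0 ρ1), ← hf2, sub_eq_zero]
    have h1 := hpot' i (fun a => dQ ρ ρ0 ρ1 (dQ θ θ0 θ1 ((p1 i).qs ((σ i).av a)))) (dQ ρ ρ0 ρ1 (dQ θ θ0 θ1 (q' 0)))
    have h2 : (fun j => dQ ρ ρ0 ρ1 (dQ θ θ0 θ1 ((p1 i).qs ((σ i).av j))) + dQ ρ ρ0 ρ1 (dQ θ θ0 θ1 (q' 0)) *
        dQ ρ ρ0 ρ1 (dQ θ θ0 θ1 ((p1 i).qs ((σ i).v j)))) = fun j => dQ ρ ρ0 ρ1 (dQ θ θ0 θ1 (q' j)) := by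
      funext j
      rw [← map_mul, ← map_mul, ← map_add, ← map_add, hav]
      congr 2
      ring
    rw [h2] at h1
    rw [h1, hH', map_Hp, map_Hp, eval_Hp, eval_Hp]
    have h3 : ∑ j : Fin k, dQ ρ ρ0 ρ1 (dQ θ θ0 θ1 ((p1 i).qs ((σ i).av 0))) ^ ((j : ℕ) + 1) *
        MvPolynomial.eval (fun a => dQ ρ ρ0 ρ1 (dQ θ θ0 θ1 ((p1 i).qs ((σ i).av a))))
          (MvPolynomial.map (dQ ρ ρ0 ρ1) (MvPolynomial.map (dQ θ θ0 θ1) (P n i j))) = 0 := by
      apply Finset.sum_eq_zero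
      intro j _
      rw [hav0, map_zero, map_zero, zero_pow (Nat.succ_ne_zero _), zero_mul]
    rw [h3, sub_zero]
    have h4 := hzP i n
    rw [← dQ_eq_zero θ θ0 θ1, map_sub, sub_eq_zero, map_eval', map_Hp, eval_Hp] at h4
    have h5 := congrArg (dQ ρ ρ0 ρ1) h4
    rw [map_sum] at h5
    rw [h5]
    apply Finset.sum_congr rfl
    intro j _
    rw [map_mul, map_pow, map_eval' (dQ ρ ρ0 ρ1)]

end

end Pool.Agent.Helper50.VM
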