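import Pool.Agent.Helper50.VC.Vb

/-! Exact entropy calculus: curved lines over a flat base with vector valued top coordinates, lines of two types through
the same points (`s` for the first line of a star, `s'` for the second line): Z-shapes. Version of VC/Vb for two types. -/

set_option autoImplicit false

namespace Pool.Agent.Helper50.VM

open Pool.Agent.Helper31.EC QS Pool.Agent.Helper38.NS Pool.Agent.Helper96.FLT Pool.Agent.Helper50.CV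
open Pool.Agent.Helper50.VC (VB)

noncomputable section

variable {S : Sp} {d k N : ℕ}

/-- two types of lines through the same points -/
structure Com (s s' : VB S d k N) : Prop where
  t : s'.t = s.t
  y : s'.fv.y = s.fv.y
  z : s'.fv.z = s.fv.z

namespace Com

variable {s s' s2 : VB S d k N}

theorem iT (hc : Com s s') : s'.fv.iT = s.fv.iT := by
  unfold FV.iT
  exact congrArg (fun f => dg f 1) hc.t

theorem iY (hc : Com s s') : s'.fv.iY = s.fv.iY := by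
  unfold FV.iY
  rw [hc.y]

theorem iZ (hc : Com s s') : s'.fv.iZ = s.fv.iZ := by
  unfold FV.iZ
  rw [hc.z]

theorem refl (s : VB S d k N) : Com s s := ⟨rfl, rfl, rfl⟩

theorem symm (hc : Com s s') : Com s' s := ⟨hc.t.symm, hc.y.symm, hc.z.symm⟩

theorem trans (hc : Com s s') (h2 : Com s' s2) : Com s s2 :=
  ⟨h2.t.trans hc.t, h2.y.trans hc.y, h2.z.trans hc.z⟩

end Com

section star

variable {s s' : VB S d k N} (w : s.fv.Star)

/-- the direction of the second line is independent of the point -/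
theorem s2 (hc : Com s s') (hs' : s'.Hyp) :
    I (w.p2.map s'.fv.iX) (w.p1.map (s.fv.iT ⊔ (s.fv.iY ⊔ s.fv.iZ))) ⊥ = 0 := by
  have h1 := w.p2.I_map s'.fv.iX (s'.fv.iT ⊔ (s'.fv.iY ⊔ s'.fv.iZ)) ⊥
  rw [hs'.s1, w.p2.map_bot, hc.iT, hc.iY, hc.iZ, w.p2.map_sup, w.p2.map_sup, w.eT, w.eY, w.eZ, ← w.p1.map_sup,
    ← w.p1.map_sup] at h1
  exact h1

/-- the direction of the second line is independent of the first line and the height -/
theorem d1 (hc : Com s s') (hs' : s'.Hyp) :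
    I (w.p2.map s'.fv.iX) (w.p1.map (s.fv.iL ⊔ s.fv.iB) ⊔ w.p1.map s.fv.iT) ⊥ = 0 := by
  have h1 := s2 w hc hs'
  have h2 := ind_add h1 (ind_symm (w.ci (s.fv.iL ⊔ s.fv.iB ⊔ s.fv.iT) s'.fv.iX)) (by rw [sup_bot_eq])
  rw [w.p1.map_sup (s.fv.iL ⊔ s.fv.iB)] at h2
  exact ind_of h2 le_rfl bot_le le_sup_left (by order)

theorem d1' (hs : s.Hyp) : I (w.p1.map s.fv.iX) (w.p2.map (s'.fv.iL ⊔ s'.fv.iB) ⊔ w.p1.map s.fv.iT) ⊥ = 0 := by
  have h1 := w.p1.I_map s.fv.iX (s.fv.iT ⊔ (s.fv.iY ⊔ s.fv.iZ)) ⊥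
  rw [hs.s1, w.p1.map_bot] at h1
  have h2 := ind_add h1 (w.ci s.fv.iX (s'.fv.iL ⊔ s'.fv.iB ⊔ s.fv.iT)) (by rw [sup_bot_eq])
  rw [w.p2.map_sup (s'.fv.iL ⊔ s'.fv.iB), w.eT] at h2
  exact ind_of h2 le_rfl bot_le le_sup_left (by order)

/-- the height is independent of the first line and the direction of the second one -/
theorem d2 (hc : Com s s') (hs : s.Hyp) (hs' : s'.Hyp) :
    I (w.p1.map s.fv.iT) (w.p1.map (s.fv.iL ⊔ s.fv.iB) ⊔ w.p2.map s'.fv.iX) ⊥ = 0 := by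
  have h1 := w.p1.I_map s.fv.iT (s.fv.iL ⊔ s.fv.iB) ⊥
  rw [hs.s0, w.p1.map_bot] at h1
  refine ind_add h1 (C' := w.p1.map (s.fv.iL ⊔ s.fv.iB)) (ind_symm ?_) (by rw [sup_bot_eq])
  exact ind_of (d1 w hc hs') bot_le (by order) le_sup_left (by order)

theorem d2' (hc : Com s s') (hs : s.Hyp) (hs' : s'.Hyp) :
    I (w.p1.map s.fv.iT) (w.p2.map (s'.fv.iL ⊔ s'.fv.iB) ⊔ w.p1.map s.fv.iX) ⊥ = 0 := by
  have h1 := w.p2.I_map s'.fv.iT (s'.fv.iL ⊔ s'.fv.iB) ⊥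
  rw [hs'.s0, w.p2.map_bot, hc.iT, w.eT] at h1
  refine ind_add h1 (C' := w.p2.map (s'.fv.iL ⊔ s'.fv.iB)) (ind_symm ?_) (by rw [sup_bot_eq])
  exact ind_of (d1' w hs) bot_le (by order) le_sup_left (by order)

end star

/-- Z-shape: two stars with the same first line and the same direction of the second line -/
structure Zed {s : VB S d k N} (s' : VB S d k N) (w : s.fv.Star) where
  D : Sp
  q1 : Pj D w.D
  q2 : Pj D w.D
  ca : ∀ i, q1.qs (w.p1.qs (s.a i)) = q2.qs (w.p1.qs (s.a i))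
  cu : ∀ i, q1.qs (w.p1.qs (s.x i)) = q2.qs (w.p1.qs (s.x i))
  cc : ∀ n j, q1.qs (w.p1.qs (s.c n j)) = q2.qs (w.p1.qs (s.c n j))
  cx : ∀ i, q1.qs (w.p2.qs (s'.x i)) = q2.qs (w.p2.qs (s'.x i))
  ci : ∀ x y, I (q1.map x) (q2.map y)
    (q1.map (w.p1.map (s.fv.iL ⊔ s.fv.iB) ⊔ w.p2.map s'.fv.iX)) = 0

theorem exists_zed {s : VB S d k N} (hs : s.Hyp) (s' : VB S d k N) (w : s.fv.Star) : Nonempty (Zed s' w) := by
  obtain ⟨D, q1, q2, c, i, -⟩ := exists_copyS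
    (Sum.elim (fun i => w.p1.qs (s.a i)) (Sum.elim (fun i => w.p1.qs (s.x i))
      (Sum.elim (fun j => w.p1.qs (s.cf j)) (fun i => w.p2.qs (s'.x i)))))
  refine ⟨⟨D, q1, q2, fun j => c (Sum.inl j), fun j => c (Sum.inr (Sum.inl j)),
    fun n j => c (Sum.inr (Sum.inr (Sum.inl (n, j)))),
    fun j => c (Sum.inr (Sum.inr (Sum.inr j))), ?_⟩⟩
  rw [vd_sum, vd_sum, vd_sum, w.p1.qs_vd, w.p1.qs_vd, w.p1.qs_vd, w.p2.qs_vd] at i
  have h1 : w.p1.map (vd s.cf 1) ≤ w.p1.map (s.fv.iL ⊔ s.fv.iB) := w.p1.map_mono hs.vc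
  have h1' : w.p1.map s.fv.iB ≤ w.p1.map (vd s.cf 1) := w.p1.map_mono s.iB_le
  have h3 : w.p1.map s.fv.iL = w.p1.map (vd s.a 1) ⊔ w.p1.map (vd s.x 1) := by
    unfold FV.iL
    rw [w.p1.map_sup]
    rfl
  have h4 : w.p1.map (s.fv.iL ⊔ s.fv.iB) = w.p1.map s.fv.iL ⊔ w.p1.map s.fv.iB := w.p1.map_sup _ _
  have h2 : w.p1.map (vd s.a 1) ⊔ (w.p1.map (vd s.x 1) ⊔ (w.p1.map (vd s.cf 1) ⊔ w.p2.map (vd s'.x 1))) =
      w.p1.map (s.fv.iL ⊔ s.fv.iB) ⊔ w.p2.map s'.fv.iX := by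
    have h5 : s'.fv.iX = vd s'.x 1 := rfl
    rw [h5]
    order
  rw [h2] at i
  exact i

namespace Zed

variable {s s' : VB S d k N} {w : s.fv.Star} (v : Zed s' w)

/-- informations of the Z-shape: first height, second height -/
def T0 : v.D.L := v.q1.map (w.p1.map s.fv.iT)
def T0' : v.D.L := v.q2.map (w.p1.map s.fv.iT)
/-- direction of the common line -/
def U : v.D.L := v.q1.map (w.p1.map s.fv.iX)
/-- the common line -/
def R : v.D.L := v.q1.map (w.p1.map (s.fv.iL ⊔ s.fv.iB))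
/-- the two parallel lines -/
def K : v.D.L := v.q1.map (w.p2.map (s'.fv.iL ⊔ s'.fv.iB))
def K' : v.D.L := v.q2.map (w.p2.map (s'.fv.iL ⊔ s'.fv.iB))
def X : v.D.L := v.q1.map (w.p2.map s'.fv.iX)
/-- difference of the heights -/
def tau : QS v.D := v.q2.qs (w.p1.qs s.t) - v.q1.qs (w.p1.qs s.t)

theorem eU : v.q2.map (w.p1.map s.fv.iX) = v.U := by
  unfold U FV.iX
  rw [← w.p1.qs_vd, ← v.q1.qs_vd, ← v.q2.qs_vd]
  exact (vd_congr v.cu 1).symm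

theorem eX : v.q2.map (w.p2.map s'.fv.iX) = v.X := by
  unfold X FV.iX
  rw [← w.p2.qs_vd, ← v.q1.qs_vd, ← v.q2.qs_vd]
  exact (vd_congr v.cx 1).symm

theorem eR : v.q2.map (w.p1.map (s.fv.iL ⊔ s.fv.iB)) = v.R := by
  have h1 : v.q2.map (w.p1.map (vd s.fv.a 1)) = v.q1.map (w.p1.map (vd s.fv.a 1)) := by
    rw [← w.p1.qs_vd, ← v.q1.qs_vd, ← v.q2.qs_vd]
    exact (vd_congr v.ca 1).symm
  have h2 : v.q2.map (w.p1.map (vd s.fv.x 1)) = v.q1.map (w.p1.map (vd s.fv.x 1)) := by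
    rw [← w.p1.qs_vd, ← v.q1.qs_vd, ← v.q2.qs_vd]
    exact (vd_congr v.cu 1).symm
  have h3 : v.q2.map (w.p1.map (vd s.fv.b 1)) = v.q1.map (w.p1.map (vd s.fv.b 1)) := by
    rw [← w.p1.qs_vd, ← v.q1.qs_vd, ← v.q2.qs_vd]
    exact (vd_congr (fun n => v.cc n 0) 1).symm
  unfold R FV.iL FV.iB
  rw [w.p1.map_sup, w.p1.map_sup, v.q2.map_sup, v.q2.map_sup, h1, h2, h3, ← v.q1.map_sup,
    ← v.q1.map_sup]

/-- the first height is independent of the second star -/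
theorem e1 (hc : Com s s') (hs : s.Hyp) (hs' : s'.Hyp) (y : w.D.L) : I v.T0 (v.R ⊔ v.X ⊔ v.q2.map y) ⊥ = 0 := by
  have h1 := v.q1.I_map (w.p1.map s.fv.iT) (w.p1.map (s.fv.iL ⊔ s.fv.iB) ⊔ w.p2.map s'.fv.iX) ⊥
  rw [d2 w hc hs hs', v.q1.map_bot] at h1
  have h2 := ind_add h1 (v.ci (w.p1.map s.fv.iT) y) (by rw [sup_bot_eq])
  rw [v.q1.map_sup] at h2
  exact h2

theorem e1' (hc : Com s s') (hs : s.Hyp) (hs' : s'.Hyp) (y : w.D.L) : I v.T0' (v.R ⊔ v.X ⊔ v.q1.map y) ⊥ = 0 := by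
  have h1 := v.q2.I_map (w.p1.map s.fv.iT) (w.p1.map (s.fv.iL ⊔ s.fv.iB) ⊔ w.p2.map s'.fv.iX) ⊥
  rw [d2 w hc hs hs', v.q2.map_bot, v.q2.map_sup, v.eR, v.eX] at h1
  have h3 := ind_symm (v.ci y (w.p1.map s.fv.iT))
  rw [v.q1.map_sup] at h3
  exact ind_add h1 h3 (by rw [sup_bot_eq]; rfl)

/-- heights are independent of the second line and the direction of the first one -/
theorem e3 (hc : Com s s') (hs : s.Hyp) (hs' : s'.Hyp) : I v.T0' (v.K' ⊔ v.U) ⊥ = 0 := by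
  have h1 := v.q2.I_map (w.p1.map s.fv.iT) (w.p2.map (s'.fv.iL ⊔ s'.fv.iB) ⊔ w.p1.map s.fv.iX) ⊥
  rw [d2' w hc hs hs', v.q2.map_bot, v.q2.map_sup, v.eU] at h1
  exact h1

theorem e3' (hc : Com s s') (hs : s.Hyp) (hs' : s'.Hyp) : I v.T0 (v.K ⊔ v.U) ⊥ = 0 := by
  have h1 := v.q1.I_map (w.p1.map s.fv.iT) (w.p2.map (s'.fv.iL ⊔ s'.fv.iB) ⊔ w.p1.map s.fv.iX) ⊥
  rw [d2' w hc hs hs', v.q1.map_bot, v.q1.map_sup] at h1
  exact h1

theorem HT0 (hs : s.Hyp) : H v.T0 = 1 := by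
  unfold T0
  rw [v.q1.H_map, w.p1.H_map, hs.HT]

theorem HT0' (hs : s.Hyp) : H v.T0' = 1 := by
  unfold T0'
  rw [v.q2.H_map, w.p1.H_map, hs.HT]

theorem T0_eq : v.T0 = dg (v.q1.qs (w.p1.qs s.t)) 1 := by
  unfold T0 FV.iT
  rw [← w.p1.qs_dg, ← v.q1.qs_dg]
  rfl

theorem T0'_eq : v.T0' = dg (v.q2.qs (w.p1.qs s.t)) 1 := by
  unfold T0' FV.iT
  rw [← w.p1.qs_dg, ← v.q2.qs_dg]
  rfl

theorem tau_le : dg v.tau 1 ≤ v.T0 ⊔ v.T0' := by
  rw [v.T0_eq, v.T0'_eq]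
  unfold tau
  refine (dg_sub_le _ _ le_rfl).trans ?_
  order

theorem T0'_le : v.T0' ≤ v.T0 ⊔ dg v.tau 1 := by
  rw [v.T0_eq, v.T0'_eq]
  have h1 : v.q2.qs (w.p1.qs s.t) = v.q1.qs (w.p1.qs s.t) + v.tau := by
    unfold tau
    ring
  conv_lhs => rw [h1]
  exact dg_add_le _ _ le_rfl

/-- the first height is independent of the second line, the direction `u` and `tau` -/
theorem e4 (hc : Com s s') (hs : s.Hyp) (hs' : s'.Hyp) : I v.T0 (v.K' ⊔ v.U ⊔ dg v.tau 1) ⊥ = 0 := by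
  have h1 := v.e3 hc hs hs'
  have h2 := v.e1 hc hs hs' (w.p2.map (s'.fv.iL ⊔ s'.fv.iB) ⊔ w.p1.map s.fv.iX ⊔ w.p1.map s.fv.iT)
  rw [v.q2.map_sup, v.q2.map_sup, v.eU] at h2
  have h3 : I v.T0 (v.K' ⊔ v.U ⊔ v.T0') ⊥ = 0 :=
    ind_of h2 le_rfl bot_le le_sup_left (by unfold K' T0'; order)
  have h4 := I_zero_iff_h.mp h3
  have h5 := I_zero_iff_h.mp h1
  rw [sup_bot_eq, h_bot, v.HT0 hs] at h4
  rw [sup_bot_eq, h_bot, v.HT0' hs] at h5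
  have a1 := v.tau_le
  have a2 := v.T0'_le
  have h6 : v.T0' ⊔ v.T0 ⊔ (v.K' ⊔ v.U) = dg v.tau 1 ⊔ v.T0 ⊔ (v.K' ⊔ v.U) := by order
  have h7 : h (v.T0' ⊔ v.T0) (v.K' ⊔ v.U) = h (dg v.tau 1 ⊔ v.T0) (v.K' ⊔ v.U) := by
    unfold h
    rw [h6]
  rw [h_chain, h_chain, h5] at h7
  have h8 : v.T0' ⊔ (v.K' ⊔ v.U) = v.K' ⊔ v.U ⊔ v.T0' := sup_comm _ _
  rw [h8, h4] at h7
  have h9 := FV.h_dg1 v.tau (v.K' ⊔ v.U)
  refine ind_of_h ?_
  rw [h_bot, sup_bot_eq, v.HT0 hs]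
  have h10 : dg v.tau 1 ⊔ (v.K' ⊔ v.U) = v.K' ⊔ v.U ⊔ dg v.tau 1 := sup_comm _ _
  rw [h10] at h7
  linarith

/-- `tau` is independent of the first star -/
theorem e5 (hc : Com s s') (hs : s.Hyp) (hs' : s'.Hyp) : I (dg v.tau 1) (v.K ⊔ v.U ⊔ v.T0) ⊥ = 0 := by
  have h2 := v.e1' hc hs hs' (w.p2.map (s'.fv.iL ⊔ s'.fv.iB) ⊔ w.p1.map s.fv.iX ⊔ w.p1.map s.fv.iT)
  rw [v.q1.map_sup, v.q1.map_sup] at h2
  have h3 : I v.T0' (v.K ⊔ v.U ⊔ v.T0) ⊥ = 0 :=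
    ind_of h2 le_rfl bot_le le_sup_left (by unfold K U T0; order)
  have h4 := I_zero_iff_h.mp h3
  rw [sup_bot_eq, h_bot, v.HT0' hs] at h4
  refine ind_of_h ?_
  rw [h_bot, sup_bot_eq]
  have a1 := v.T0'_le
  have h5 : h v.T0' (v.K ⊔ v.U ⊔ v.T0) ≤ h (dg v.tau 1) (v.K ⊔ v.U ⊔ v.T0) := by
    have h6 := h_mono (B := v.K ⊔ v.U ⊔ v.T0) a1
    have h7 := h_sup_le v.T0 (dg v.tau 1) (v.K ⊔ v.U ⊔ v.T0)
    have h8 : h v.T0 (v.K ⊔ v.U ⊔ v.T0) = 0 := h_zero (by order)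
    linarith
  have h6 := FV.H_dg1 v.tau
  linarith

/-- `tau` is real -/
theorem Htau (hc : Com s s') (hs : s.Hyp) (hs' : s'.Hyp) : H (dg v.tau 1) = 1 := by
  apply le_antisymm (FV.H_dg1 v.tau)
  have h1 := v.T0'_le
  have h3 := v.e1' hc hs hs' (w.p1.map s.fv.iT)
  have h4 : I v.T0' v.T0 ⊥ = 0 := ind_of h3 le_rfl bot_le le_sup_left (by unfold Zed.T0; order)
  have h5 := I_zero_iff_h.mp h4
  rw [sup_bot_eq, h_bot, v.HT0' hs] at h5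
  have h6 := H_chain v.T0 v.T0'
  have h7 := H_sup_le v.T0 (dg v.tau 1)
  have h8 : H (v.T0 ⊔ v.T0') ≤ H (v.T0 ⊔ dg v.tau 1) := H_mono (sup_le le_sup_left h1)
  linarith [v.HT0 hs]

/-- coordinates of the second line -/
theorem za (hc : Com s s') (i : Fin d) : v.q1.qs (w.p2.qs (s'.a i)) = v.q2.qs (w.p2.qs (s'.a i)) -
    v.tau * (v.q1.qs (w.p1.qs (s.x i)) - v.q2.qs (w.p2.qs (s'.x i))) := by
  have h0 : w.p1.qs (s.a i + s.t * s.x i) = w.p2.qs (s'.a i + s.t * s'.x i) := by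
    have e1 := w.cy i
    have e2 : s.fv.y i = s'.a i + s.t * s'.x i := by
      rw [← hc.y, ← hc.t]
      rfl
    have e3 : s.fv.y i = s.a i + s.t * s.x i := rfl
    rw [← e3, ← e2]
    exact e1
  have h1 := congrArg v.q1.qs h0
  have h2 := congrArg v.q2.qs h0
  simp only [map_add, map_mul] at h1 h2
  have ht : w.p1.qs s.t = w.p2.qs s.t := w.ct
  have h3 := congrArg v.q1.qs ht
  have h4 := congrArg v.q2.qs ht
  have c1 : v.q1.qs (w.p1.qs (s.a i)) = v.q2.qs (w.p1.qs (s.a i)) := v.ca i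
  have c2 : v.q1.qs (w.p1.qs (s.x i)) = v.q2.qs (w.p1.qs (s.x i)) := v.cu i
  have c3 : v.q1.qs (w.p2.qs (s'.x i)) = v.q2.qs (w.p2.qs (s'.x i)) := v.cx i
  rw [← h3] at h1
  rw [← h4, ← c1, ← c2] at h2
  rw [c3] at h1
  unfold tau
  linear_combination h2 - h1

/-- the top coordinate of the first line -/
theorem zc (hc : Com s s') (n : Fin N) : pe (fun j => v.q1.qs (w.p2.qs (s'.c n j))) (v.q1.qs (w.p1.qs s.t)) =
    pe (fun j => v.q2.qs (w.p2.qs (s'.c n j))) (v.q1.qs (w.p1.qs s.t) + v.tau) -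
    pe (fun j => v.q1.qs (w.p1.qs (s.c n j))) (v.q1.qs (w.p1.qs s.t) + v.tau) +
    pe (fun j => v.q1.qs (w.p1.qs (s.c n j))) (v.q1.qs (w.p1.qs s.t)) := by
  have h0 : w.p1.qs (pe (s.c n) s.t) = w.p2.qs (pe (s'.c n) s.t) := by
    have e1 := w.cz n
    have e2 : s.fv.z n = pe (s'.c n) s.t := by
      rw [← hc.z, s'.z_eq, hc.t]
    rw [← s.z_eq, ← e2]
    exact e1
  have h1 := congrArg v.q1.qs h0
  have h2 := congrArg v.q2.qs h0
  rw [pe_map, pe_map, pe_map, pe_map] at h1 h2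
  have h3 : w.p1.qs s.t = w.p2.qs s.t := w.ct
  have h5 : (fun j => v.q2.qs (w.p1.qs (s.c n j))) = fun j => v.q1.qs (w.p1.qs (s.c n j)) := funext fun j => (v.cc n j).symm
  rw [← h3] at h1 h2
  rw [h5] at h2
  have h6 : v.q1.qs (w.p1.qs s.t) + v.tau = v.q2.qs (w.p1.qs s.t) := by
    unfold tau
    ring
  rw [h6]
  linear_combination h2 - h1

end Zed


end

end Pool.Agent.Helper50.VM
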