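import Pool.Agent.Helper50.VC.Rct
import Pool.Agent.Helper50.VM.Zed

/-! Exact entropy calculus: the rectangle of curved lines of two types with vector valued top coordinates as a block of
absorbed noise. Version of VC/Rct for two types. -/

set_option autoImplicit false

namespace Pool.Agent.Helper50.VM

open Pool.Agent.Helper31.EC QS Pool.Agent.Helper38.NS Pool.Agent.Helper96.FLT
open Pool.Agent.Helper50.VC (VB Bk)
open Pool.Agent.Helper50.CV hiding Bk Cf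

noncomputable section

variable {S : Sp} {d k N : ℕ}

/-- two types of lines through the same points with the hypotheses -/
structure Hyp2 (s s' : VB S d k N) : Prop where
  c : Com s s'
  h : s.Hyp
  h' : s'.Hyp

theorem Hyp2.symm {s s' : VB S d k N} (hs : Hyp2 s s') : Hyp2 s' s := ⟨hs.c.symm, hs.h', hs.h⟩


section star

variable {s s' : VB S d k N} (w : s.fv.Star)

/-- the first base line from the second one, the height and the direction -/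
theorem la (hc : Com s s') : w.p1.map s.fv.iL ≤ w.p2.map s'.fv.iL ⊔ w.p1.map s.fv.iX ⊔ w.p1.map s.fv.iT := by
  unfold FV.iL FV.iX FV.iT
  rw [w.p1.map_sup, w.p2.map_sup, ← w.p1.qs_vd, ← w.p1.qs_vd, ← w.p2.qs_vd, ← w.p2.qs_vd,
    ← w.p1.qs_dg]
  refine sup_le ?_ (by order)
  rw [vd_le]
  intro i
  have h0 : w.p1.qs (s.a i + s.t * s.x i) = w.p2.qs (s'.a i + s.t * s'.x i) := by
    have e1 := w.cy i
    have e2 : s.fv.y i = s'.a i + s.t * s'.x i := by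
      rw [← hc.y, ← hc.t]
      rfl
    have e3 : s.fv.y i = s.a i + s.t * s.x i := rfl
    rw [← e3, ← e2]
    exact e1
  simp only [map_add, map_mul] at h0
  have ht : w.p1.qs s.t = w.p2.qs s.t := w.ct
  rw [← ht] at h0
  have h2 : w.p1.qs (s.a i) = w.p2.qs (s'.a i) + w.p1.qs s.t * w.p2.qs (s'.x i) -
      w.p1.qs s.t * w.p1.qs (s.x i) := by linear_combination h0
  have a1 := dg_add_le (w.p2.qs (s'.a i)) (w.p1.qs s.t * w.p2.qs (s'.x i)) (r := 1) le_rfl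
  have a2 := dg_mul_le (w.p1.qs s.t) (w.p2.qs (s'.x i)) (r := 1) le_rfl
  have a3 := dg_mul_le (w.p1.qs s.t) (w.p1.qs (s.x i)) (r := 1) le_rfl
  have a4 := dg_le_vd (fun i => w.p2.qs (s'.a i)) 1 i
  have a5 := dg_le_vd (fun i => w.p2.qs (s'.x i)) 1 i
  have a6 := dg_le_vd (fun i => w.p1.qs (s.x i)) 1 i
  beta_reduce at a4 a5 a6
  show dg (w.p1.qs (s.a i)) 1 ≤ vd (fun i => w.p2.qs (s'.a i)) 1 ⊔ vd (fun i => w.p2.qs (s'.x i)) 1 ⊔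
    vd (fun i => w.p1.qs (s.x i)) 1 ⊔ dg (w.p1.qs s.t) 1
  rw [h2]
  refine (dg_sub_le _ _ le_rfl).trans ?_
  order

theorem lF (hs : Hyp2 s s') (n : Fin N) (j : Fin k) :
    dg (w.p1.qs (s.c n j.succ)) 1 ≤ w.p2.map s'.fv.iL ⊔ w.p1.map s.fv.iX ⊔ w.p1.map s.fv.iT := by
  rw [w.p1.qs_dg]
  exact (w.p1.map_mono (hs.h.hF n j)).trans (la w hs.c)

theorem lF2 (hs : Hyp2 s s') (n : Fin N) (j : Fin k) : dg (w.p2.qs (s'.c n j.succ)) 1 ≤ w.p2.map s'.fv.iL := by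
  rw [w.p2.qs_dg]
  exact w.p2.map_mono (hs.h'.hF n j)

end star

/-- rectangle: two Z-shapes with the same second parallel line, the same `u`, the same `tau` -/
structure Rct {s s' : VB S d k N} {w : s.fv.Star} (v : Zed s' w) where
  D : Sp
  s1 : Pj D v.D
  s2 : Pj D v.D
  ca : ∀ i, s1.qs (v.q2.qs (w.p2.qs (s'.a i))) = s2.qs (v.q2.qs (w.p2.qs (s'.a i)))
  cx : ∀ i, s1.qs (v.q2.qs (w.p2.qs (s'.x i))) = s2.qs (v.q2.qs (w.p2.qs (s'.x i)))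
  cc : ∀ n j, s1.qs (v.q2.qs (w.p2.qs (s'.c n j))) = s2.qs (v.q2.qs (w.p2.qs (s'.c n j)))
  cu : ∀ i, s1.qs (v.q1.qs (w.p1.qs (s.x i))) = s2.qs (v.q1.qs (w.p1.qs (s.x i)))
  ct : s1.qs v.tau = s2.qs v.tau
  ci : ∀ x y, I (s1.map x) (s2.map y) (s1.map (v.K' ⊔ v.U ⊔ dg v.tau 1)) = 0

theorem exists_rct {s s' : VB S d k N} (hs' : s'.Hyp) {w : s.fv.Star} (v : Zed s' w) : Nonempty (Rct v) := by
  obtain ⟨D, s1, s2, c, i, -⟩ := exists_copyS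
    (Sum.elim (fun i => v.q2.qs (w.p2.qs (s'.a i))) (Sum.elim (fun i => v.q2.qs (w.p2.qs (s'.x i)))
      (Sum.elim (fun j => v.q2.qs (w.p2.qs (s'.cf j)))
          (Sum.elim (fun i => v.q1.qs (w.p1.qs (s.x i))) (fun _ : Unit => v.tau)))))
  refine ⟨⟨D, s1, s2, fun j => c (Sum.inl j), fun j => c (Sum.inr (Sum.inl j)),
    fun n j => c (Sum.inr (Sum.inr (Sum.inl (n, j)))),
    fun j => c (Sum.inr (Sum.inr (Sum.inr (Sum.inl j)))),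
    c (Sum.inr (Sum.inr (Sum.inr (Sum.inr ())))), ?_⟩⟩
  rw [vd_sum, vd_sum, vd_sum, vd_sum, vd_unit, v.q2.qs_vd, v.q2.qs_vd, v.q2.qs_vd,
    v.q1.qs_vd, w.p2.qs_vd, w.p2.qs_vd, w.p2.qs_vd, w.p1.qs_vd] at i
  have h1 : v.q2.map (w.p2.map (vd s'.cf 1)) ≤ v.q2.map (w.p2.map (s'.fv.iL ⊔ s'.fv.iB)) :=
    v.q2.map_mono (w.p2.map_mono hs'.vc)
  have h1' : v.q2.map (w.p2.map s'.fv.iB) ≤ v.q2.map (w.p2.map (vd s'.cf 1)) :=
    v.q2.map_mono (w.p2.map_mono s'.iB_le)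
  have h3 : v.q2.map (w.p2.map s'.fv.iL) =
      v.q2.map (w.p2.map (vd s'.a 1)) ⊔ v.q2.map (w.p2.map (vd s'.x 1)) := by
    unfold FV.iL
    rw [w.p2.map_sup, v.q2.map_sup]
    rfl
  have h4 : v.K' = v.q2.map (w.p2.map s'.fv.iL) ⊔ v.q2.map (w.p2.map s'.fv.iB) := by
    unfold Zed.K'
    rw [w.p2.map_sup, v.q2.map_sup]
  have h4' : v.q2.map (w.p2.map (s'.fv.iL ⊔ s'.fv.iB)) = v.K' := rfl
  have h5 : v.U = v.q1.map (w.p1.map (vd s.x 1)) := rfl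
  have h2 : v.q2.map (w.p2.map (vd s'.a 1)) ⊔ (v.q2.map (w.p2.map (vd s'.x 1)) ⊔
      (v.q2.map (w.p2.map (vd s'.cf 1)) ⊔ (v.q1.map (w.p1.map (vd s.x 1)) ⊔ dg v.tau 1))) =
      v.K' ⊔ v.U ⊔ dg v.tau 1 := by
    rw [h4'] at h1
    rw [h5]
    order
  rw [h2] at i
  exact i

namespace Rct

variable {s s' : VB S d k N} {w : s.fv.Star} {v : Zed s' w} (g : Rct v)

def T0 : g.D.L := g.s1.map v.T0
def T1 : g.D.L := g.s2.map v.T0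
def U : g.D.L := g.s1.map v.U
def K0 : g.D.L := g.s1.map v.K
def K1 : g.D.L := g.s2.map v.K
def L : g.D.L := g.s1.map (v.q1.map (w.p2.map s'.fv.iL))
def tau : QS g.D := g.s1.qs v.tau
def V3 : g.D.L := g.s1.map (v.K' ⊔ v.U ⊔ dg v.tau 1)

theorem eU : g.s2.map v.U = g.U := by
  unfold U Zed.U FV.iX
  rw [← w.p1.qs_vd, ← v.q1.qs_vd, ← g.s1.qs_vd, ← g.s2.qs_vd]
  exact (vd_congr g.cu 1).symm

theorem etau : g.s2.map (dg v.tau 1) = dg g.tau 1 := by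
  unfold tau
  rw [g.ct, g.s2.qs_dg]

theorem etau1 : g.s1.map (dg v.tau 1) = dg g.tau 1 := by
  unfold tau
  rw [g.s1.qs_dg]

theorem ax (i : Fin d) : g.s1.qs (v.q1.qs (w.p2.qs (s'.x i))) =
    g.s2.qs (v.q1.qs (w.p2.qs (s'.x i))) := by
  rw [v.cx i, g.cx i]

theorem aa (hc : Com s s') (i : Fin d) : g.s1.qs (v.q1.qs (w.p2.qs (s'.a i))) =
    g.s2.qs (v.q1.qs (w.p2.qs (s'.a i))) := by
  rw [v.za hc i]
  simp only [map_sub, map_mul]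
  rw [g.ca i, g.cx i, g.cu i, g.ct]

theorem eL (hc : Com s s') : g.s2.map (v.q1.map (w.p2.map s'.fv.iL)) = g.L := by
  unfold L FV.iL
  rw [w.p2.map_sup, v.q1.map_sup, g.s1.map_sup, g.s2.map_sup]
  rw [← w.p2.qs_vd, ← w.p2.qs_vd, ← v.q1.qs_vd, ← v.q1.qs_vd, ← g.s1.qs_vd, ← g.s1.qs_vd,
    ← g.s2.qs_vd, ← g.s2.qs_vd]
  have h1 : vd (fun i => g.s2.qs (v.q1.qs (w.p2.qs (s'.fv.a i)))) 1 =
      vd (fun i => g.s1.qs (v.q1.qs (w.p2.qs (s'.fv.a i)))) 1 := (vd_congr (g.aa hc) 1).symm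
  have h2 : vd (fun i => g.s2.qs (v.q1.qs (w.p2.qs (s'.fv.x i)))) 1 =
      vd (fun i => g.s1.qs (v.q1.qs (w.p2.qs (s'.fv.x i)))) 1 := (vd_congr g.ax 1).symm
  rw [h1, h2]

def b0 (n : Fin N) : QS g.D := g.s1.qs (v.q1.qs (w.p2.qs (s'.c n 0)))
def b1 (n : Fin N) : QS g.D := g.s2.qs (v.q1.qs (w.p2.qs (s'.c n 0)))

theorem K0_eq : g.K0 = g.L ⊔ vd g.b0 1 := by
  unfold K0 Zed.K L FV.iB
  rw [w.p2.map_sup, v.q1.map_sup, g.s1.map_sup, ← w.p2.qs_vd, ← v.q1.qs_vd, ← g.s1.qs_vd]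
  rfl

theorem K1_eq (hc : Com s s') : g.K1 = g.L ⊔ vd g.b1 1 := by
  have h := g.eL hc
  unfold K1 Zed.K FV.iB
  rw [w.p2.map_sup, v.q1.map_sup, g.s2.map_sup, ← w.p2.qs_vd, ← v.q1.qs_vd, ← g.s2.qs_vd, h]
  rfl

theorem V3_eq : g.V3 = g.s1.map v.K' ⊔ g.U ⊔ dg g.tau 1 := by
  unfold V3 U
  rw [g.s1.map_sup, g.s1.map_sup, g.etau1]

theorem f1 (hs : Hyp2 s s') (y : v.D.L) : I g.T0 (g.V3 ⊔ g.s2.map y) ⊥ = 0 := by
  have h1 := g.s1.I_map v.T0 (v.K' ⊔ v.U ⊔ dg v.tau 1) ⊥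
  rw [v.e4 hs.c hs.h hs.h', g.s1.map_bot] at h1
  exact ind_add h1 (g.ci v.T0 y) (by rw [sup_bot_eq]; rfl)

theorem f1' (hs : Hyp2 s s') (x : v.D.L) : I g.T1 (g.V3 ⊔ g.s1.map x) ⊥ = 0 := by
  have h1 := g.s2.I_map v.T0 (v.K' ⊔ v.U ⊔ dg v.tau 1) ⊥
  rw [v.e4 hs.c hs.h hs.h', g.s2.map_bot] at h1
  have h2 : g.s2.map (v.K' ⊔ v.U ⊔ dg v.tau 1) = g.V3 := by
    rw [g.V3_eq, g.s2.map_sup, g.s2.map_sup, g.eU, g.etau]
    have h3 : g.s2.map v.K' = g.s1.map v.K' := by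
      unfold Zed.K' FV.iL FV.iB
      rw [w.p2.map_sup, w.p2.map_sup, v.q2.map_sup, v.q2.map_sup, g.s1.map_sup, g.s1.map_sup,
        g.s2.map_sup, g.s2.map_sup]
      rw [← w.p2.qs_vd, ← w.p2.qs_vd, ← w.p2.qs_vd, ← v.q2.qs_vd, ← v.q2.qs_vd, ← v.q2.qs_vd,
        ← g.s1.qs_vd, ← g.s1.qs_vd, ← g.s1.qs_vd, ← g.s2.qs_vd, ← g.s2.qs_vd, ← g.s2.qs_vd]
      have e1 : vd (fun i => g.s2.qs (v.q2.qs (w.p2.qs (s'.fv.a i)))) 1 =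
          vd (fun i => g.s1.qs (v.q2.qs (w.p2.qs (s'.fv.a i)))) 1 := (vd_congr g.ca 1).symm
      have e2 : vd (fun i => g.s2.qs (v.q2.qs (w.p2.qs (s'.fv.x i)))) 1 =
          vd (fun i => g.s1.qs (v.q2.qs (w.p2.qs (s'.fv.x i)))) 1 := (vd_congr g.cx 1).symm
      have e3 : vd (fun i => g.s2.qs (v.q2.qs (w.p2.qs (s'.fv.b i)))) 1 =
          vd (fun i => g.s1.qs (v.q2.qs (w.p2.qs (s'.fv.b i)))) 1 := (vd_congr (fun n => g.cc n 0) 1).symm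
      rw [e1, e2, e3]
    rw [h3]
  rw [h2] at h1
  exact ind_add h1 (ind_symm (g.ci x v.T0)) (by rw [sup_bot_eq]; rfl)

theorem f2 (hs : Hyp2 s s') : I (dg g.tau 1) (g.K0 ⊔ g.U ⊔ g.T0) ⊥ = 0 := by
  have h1 := g.s1.I_map (dg v.tau 1) (v.K ⊔ v.U ⊔ v.T0) ⊥
  rw [v.e5 hs.c hs.h hs.h', g.s1.map_bot, g.s1.map_sup, g.s1.map_sup, g.etau1] at h1
  exact h1

theorem f2' (hs : Hyp2 s s') : I (dg g.tau 1) (g.K1 ⊔ g.U ⊔ g.T1) ⊥ = 0 := by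
  have h1 := g.s2.I_map (dg v.tau 1) (v.K ⊔ v.U ⊔ v.T0) ⊥
  rw [v.e5 hs.c hs.h hs.h', g.s2.map_bot, g.s2.map_sup, g.s2.map_sup, g.etau, g.eU] at h1
  exact h1

theorem f3 (hs : Hyp2 s s') : I g.T1 (g.K1 ⊔ g.U) ⊥ = 0 := by
  have h1 := g.s2.I_map v.T0 (v.K ⊔ v.U) ⊥
  rw [v.e3' hs.c hs.h hs.h', g.s2.map_bot, g.s2.map_sup, g.eU] at h1
  exact h1

/-- `T1` is independent of the first Z-shape -/
theorem f4 (hs : Hyp2 s s') : I g.T1 (g.K0 ⊔ g.U ⊔ g.T0 ⊔ dg g.tau 1) ⊥ = 0 := by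
  have h1 := g.f1' hs (v.K ⊔ v.U ⊔ v.T0 ⊔ dg v.tau 1)
  rw [g.s1.map_sup, g.s1.map_sup, g.s1.map_sup, g.etau1] at h1
  exact ind_of h1 le_rfl bot_le le_sup_left (by unfold K0 U T0; order)

theorem f4' (hs : Hyp2 s s') : I g.T0 (g.K1 ⊔ g.U ⊔ g.T1 ⊔ dg g.tau 1) ⊥ = 0 := by
  have h1 := g.f1 hs (v.K ⊔ v.U ⊔ v.T0 ⊔ dg v.tau 1)
  rw [g.s2.map_sup, g.s2.map_sup, g.s2.map_sup, g.etau, g.eU] at h1
  exact ind_of h1 le_rfl bot_le le_sup_left (by unfold K1 T1; order)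

/-- the base of the block -/
def B : g.D.L := g.L ⊔ g.U ⊔ g.T0

theorem c1 (hs : Hyp2 s s') :
    I (vd g.b0 1) (dg g.tau 1 ⊔ g.T1) g.B = 0 := by
  have hK := g.K0_eq
  have hB : g.B = g.L ⊔ g.U ⊔ g.T0 := rfl
  refine ind_add (C' := dg g.tau 1 ⊔ g.B) (ind_symm ?_) (ind_symm ?_) rfl
  · exact ind_of (g.f2 hs) bot_le (by order) le_sup_left (by order)
  · exact ind_of (g.f4 hs) bot_le (by order) le_sup_left (by order)

theorem c2 (hs : Hyp2 s s') :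
    I (vd g.b1 1) (dg g.tau 1 ⊔ g.T1) g.B = 0 := by
  have hK := g.K1_eq hs.c
  have hB : g.B = g.L ⊔ g.U ⊔ g.T0 := rfl
  have h1 : I (vd g.b1 1) g.T1 (g.L ⊔ g.U) = 0 :=
    ind_symm (ind_of (g.f3 hs) bot_le (by order) le_sup_left (by order))
  have h2 : I (vd g.b1 1) (dg g.tau 1) (g.T1 ⊔ (g.L ⊔ g.U)) = 0 :=
    ind_symm (ind_of (g.f2' hs) bot_le (by order) le_sup_left (by order))
  have h3 : I (vd g.b1 1) g.T0
      (g.T1 ⊔ dg g.tau 1 ⊔ (g.L ⊔ g.U)) = 0 :=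
    ind_symm (ind_of (g.f4' hs) bot_le (by order) le_sup_left (by order))
  have h4 := ind_add (ind_add h1 h2 rfl) h3 rfl
  exact ind_of h4 (by order) (by order) le_sup_left (by order)

theorem c3 (hs : Hyp2 s s') : I g.T1 (dg g.tau 1) g.B = 0 := by
  have hK := g.K0_eq
  have hB : g.B = g.L ⊔ g.U ⊔ g.T0 := rfl
  exact ind_of (g.f4 hs) bot_le (by order) le_sup_left (by order)

theorem c4 (hs : Hyp2 s s') : I g.T1 g.B ⊥ = 0 := by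
  have hK := g.K0_eq
  have hB : g.B = g.L ⊔ g.U ⊔ g.T0 := rfl
  exact ind_of (g.f4 hs) le_rfl bot_le le_sup_left (by order)

theorem c5 (hs : Hyp2 s s') : I (dg g.tau 1) g.B ⊥ = 0 := by
  have hK := g.K0_eq
  have hB : g.B = g.L ⊔ g.U ⊔ g.T0 := rfl
  exact ind_of (g.f2 hs) le_rfl bot_le le_sup_left (by order)

theorem HT1 (hs : Hyp2 s s') : H g.T1 = 1 := by
  unfold T1
  rw [g.s2.H_map, v.HT0 hs.h]

/-- heights and coefficients as functions -/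
def t0 : QS g.D := g.s1.qs (v.q1.qs (w.p1.qs s.t))
def t1 : QS g.D := g.s2.qs (v.q1.qs (w.p1.qs s.t))
def cr0 (n : Fin N) (j : Fin k) : QS g.D := g.s1.qs (v.q1.qs (w.p1.qs (s.c n j.succ)))
def cr1 (n : Fin N) (j : Fin k) : QS g.D := g.s2.qs (v.q1.qs (w.p1.qs (s.c n j.succ)))
def cx0 (n : Fin N) (j : Fin k) : QS g.D := g.s1.qs (v.q1.qs (w.p2.qs (s'.c n j.succ)))
def cx1 (n : Fin N) (j : Fin k) : QS g.D := g.s2.qs (v.q1.qs (w.p2.qs (s'.c n j.succ)))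
def cz (n : Fin N) (j : Fin k) : QS g.D := g.s1.qs (v.q2.qs (w.p2.qs (s'.c n j.succ)))

theorem T0_eq : g.T0 = dg g.t0 1 := by
  unfold T0 t0
  rw [v.T0_eq, ← g.s1.qs_dg]

theorem T1_eq : g.T1 = dg g.t1 1 := by
  unfold T1 t1
  rw [v.T0_eq, ← g.s2.qs_dg]

theorem ht1 (hs : Hyp2 s s') : h (dg g.t1 1) g.B = 1 := by
  have h1 := I_zero_iff_h.mp (g.c4 hs)
  rw [sup_bot_eq, h_bot, g.HT1 hs, g.T1_eq] at h1
  exact h1

theorem htau (hs : Hyp2 s s') : h (dg g.tau 1) g.B = 1 := by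
  have h1 := I_zero_iff_h.mp (g.c5 hs)
  have h2 : H (dg g.tau 1) = 1 := by
    unfold tau
    rw [g.s1.qs_dg, g.s1.H_map]
    exact v.Htau hs.c hs.h hs.h'
  rw [sup_bot_eq, h_bot, h2] at h1
  exact h1

theorem lcr0 (hs : Hyp2 s s') (n : Fin N) (j : Fin k) : dg (g.cr0 n j) 1 ≤ g.L ⊔ g.U ⊔ g.T0 := by
  have h1 := g.s1.map_mono (v.q1.map_mono (lF w hs n j))
  rw [v.q1.map_sup, v.q1.map_sup, g.s1.map_sup, g.s1.map_sup] at h1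
  unfold cr0
  rw [g.s1.qs_dg, v.q1.qs_dg]
  exact h1

theorem lcr1 (hs : Hyp2 s s') (n : Fin N) (j : Fin k) : dg (g.cr1 n j) 1 ≤ g.L ⊔ g.U ⊔ g.T1 := by
  have h1 := g.s2.map_mono (v.q1.map_mono (lF w hs n j))
  rw [v.q1.map_sup, v.q1.map_sup, g.s2.map_sup, g.s2.map_sup, g.eL hs.c] at h1
  have h2 : g.s2.map (v.q1.map (w.p1.map s.fv.iX)) = g.U := g.eU
  rw [h2] at h1
  unfold cr1
  rw [g.s2.qs_dg, v.q1.qs_dg]
  exact h1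

theorem lcx0 (hs : Hyp2 s s') (n : Fin N) (j : Fin k) : dg (g.cx0 n j) 1 ≤ g.L := by
  have h1 := g.s1.map_mono (v.q1.map_mono (lF2 w hs n j))
  unfold cx0
  rw [g.s1.qs_dg, v.q1.qs_dg]
  exact h1

theorem lcx1 (hs : Hyp2 s s') (n : Fin N) (j : Fin k) : dg (g.cx1 n j) 1 ≤ g.L := by
  have h1 := g.s2.map_mono (v.q1.map_mono (lF2 w hs n j))
  rw [g.eL hs.c] at h1
  unfold cx1
  rw [g.s2.qs_dg, v.q1.qs_dg]
  exact h1

theorem lcz (hs : Hyp2 s s') (n : Fin N) (j : Fin k) : dg (g.cz n j) 1 ≤ g.L ⊔ g.U ⊔ dg g.tau 1 := by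
  have h1 := g.s1.map_mono (v.q2.map_mono (lF2 w hs n j))
  have h2 : g.s1.map (v.q2.map (w.p2.map s'.fv.iL)) ≤ g.L ⊔ g.U ⊔ dg g.tau 1 := by
    have e1 : g.s1.map (v.q2.map (w.p2.map (vd s'.x 1))) ≤ g.L := by
      have e2 : v.q2.map (w.p2.map (vd s'.x 1)) = v.q1.map (w.p2.map (vd s'.x 1)) := v.eX
      rw [e2]
      unfold L FV.iL
      exact g.s1.map_mono (v.q1.map_mono (w.p2.map_mono le_sup_right))
    have e3 : g.s1.map (v.q2.map (w.p2.map (vd s'.a 1))) ≤ g.L ⊔ g.U ⊔ dg g.tau 1 := by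
      rw [← w.p2.qs_vd, ← v.q2.qs_vd, ← g.s1.qs_vd, vd_le]
      intro i
      have a0 := congrArg g.s1.qs (v.za hs.c i)
      simp only [map_sub, map_mul] at a0
      have a1 : g.s1.qs (v.q2.qs (w.p2.qs (s'.a i))) = g.s1.qs (v.q1.qs (w.p2.qs (s'.a i))) +
          g.tau * (g.s1.qs (v.q1.qs (w.p1.qs (s.x i))) - g.s1.qs (v.q2.qs (w.p2.qs (s'.x i)))) := by
        unfold tau
        linear_combination -a0
      rw [a1]
      have b1 := dg_add_le (g.s1.qs (v.q1.qs (w.p2.qs (s'.a i)))) (g.tau *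
        (g.s1.qs (v.q1.qs (w.p1.qs (s.x i))) - g.s1.qs (v.q2.qs (w.p2.qs (s'.x i))))) (r := 1) le_rfl
      have b2 := dg_mul_le g.tau (g.s1.qs (v.q1.qs (w.p1.qs (s.x i))) -
        g.s1.qs (v.q2.qs (w.p2.qs (s'.x i)))) (r := 1) le_rfl
      have b3 := dg_sub_le (g.s1.qs (v.q1.qs (w.p1.qs (s.x i))))
        (g.s1.qs (v.q2.qs (w.p2.qs (s'.x i)))) (r := 1) le_rfl
      have b4 : dg (g.s1.qs (v.q2.qs (w.p2.qs (s'.x i)))) 1 ≤ g.L := by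
        refine le_trans ?_ e1
        rw [← w.p2.qs_vd, ← v.q2.qs_vd, ← g.s1.qs_vd]
        exact dg_le_vd (fun i => g.s1.qs (v.q2.qs (w.p2.qs (s'.x i)))) 1 i
      have b5 : dg (g.s1.qs (v.q1.qs (w.p1.qs (s.x i)))) 1 ≤ g.U := by
        unfold U Zed.U FV.iX
        rw [← w.p1.qs_vd, ← v.q1.qs_vd, ← g.s1.qs_vd]
        exact dg_le_vd (fun i => g.s1.qs (v.q1.qs (w.p1.qs (s.x i)))) 1 i
      have b6 : dg (g.s1.qs (v.q1.qs (w.p2.qs (s'.a i)))) 1 ≤ g.L := by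
        unfold L FV.iL
        refine le_trans ?_ (g.s1.map_mono (v.q1.map_mono (w.p2.map_mono le_sup_left)))
        rw [← w.p2.qs_vd, ← v.q1.qs_vd, ← g.s1.qs_vd]
        exact dg_le_vd (fun i => g.s1.qs (v.q1.qs (w.p2.qs (s'.a i)))) 1 i
      order
    have e4 : g.s1.map (v.q2.map (w.p2.map s'.fv.iL)) = g.s1.map (v.q2.map (w.p2.map (vd s'.a 1))) ⊔
        g.s1.map (v.q2.map (w.p2.map (vd s'.x 1))) := by
      unfold FV.iL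
      rw [w.p2.map_sup, v.q2.map_sup, g.s1.map_sup]
      rfl
    rw [e4]
    order
  unfold cz
  rw [g.s1.qs_dg, v.q2.qs_dg]
  exact h1.trans h2

/-- the left and right coefficients -/
def A (n : Fin N) (i : Fin k) : QS g.D := tay (g.cr1 n) g.t1 i
def C (n : Fin N) (i : Fin k) : QS g.D := tay (g.cz n) g.tau i
def ta (n : Fin N) : QS g.D := -∑ j, g.cx1 n j * g.t1 ^ ((j : ℕ) + 1)
def tb (n : Fin N) : QS g.D := ∑ j, g.cz n j * g.tau ^ ((j : ℕ) + 1) - ∑ j, g.cz n j * (g.t0 + g.tau) ^ ((j : ℕ) + 1) +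
  (∑ j, g.cr0 n j * (g.t0 + g.tau) ^ ((j : ℕ) + 1) - ∑ j, g.cr0 n j * g.t0 ^ ((j : ℕ) + 1)) +
  ∑ j, g.cx0 n j * g.t0 ^ ((j : ℕ) + 1)

/-- the identity of the rectangle -/
theorem rect_eq (hc : Com s s') (n : Fin N) : g.b1 n = g.b0 n +
    (∑ i : Fin k, g.t1 ^ ((i : ℕ) + 1) * g.C n i + ∑ i : Fin k, -g.A n i * g.tau ^ ((i : ℕ) + 1)) +
    g.ta n + g.tb n := by
  have h1 := congrArg g.s1.qs (v.zc hc n)
  have h2 := congrArg g.s2.qs (v.zc hc n)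
  simp only [map_sub, map_add, pe_map] at h1 h2
  have h3 : (fun j => g.s2.qs (v.q2.qs (w.p2.qs (s'.c n j)))) = fun j => g.s1.qs (v.q2.qs (w.p2.qs (s'.c n j))) :=
    funext fun j => (g.cc n j).symm
  rw [h3, ← g.ct] at h2
  rw [CB.Rct.pe_succ, CB.Rct.pe_succ, CB.Rct.pe_succ, CB.Rct.pe_succ] at h1 h2
  have e1 := tay_eq (g.cz n) g.t1 g.tau
  have e2 := tay_eq (g.cr1 n) g.tau g.t1
  rw [add_comm g.tau g.t1] at e2
  have e3 : ∑ i : Fin k, -g.A n i * g.tau ^ ((i : ℕ) + 1) =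
      -∑ i : Fin k, g.tau ^ ((i : ℕ) + 1) * tay (g.cr1 n) g.t1 i := by
    rw [← Finset.sum_neg_distrib]
    apply Finset.sum_congr rfl
    intro i _
    unfold A
    ring
  have e4 : ∑ i : Fin k, g.t1 ^ ((i : ℕ) + 1) * g.C n i = ∑ i : Fin k, g.t1 ^ ((i : ℕ) + 1) * tay (g.cz n) g.tau i := rfl
  rw [e3, e4]
  unfold ta tb
  have u1 : g.s1.qs (v.q1.qs (w.p2.qs (s'.c n 0))) = g.b0 n := rfl
  have u2 : g.s2.qs (v.q1.qs (w.p2.qs (s'.c n 0))) = g.b1 n := rfl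
  have u3 : g.s1.qs (v.q1.qs (w.p1.qs s.t)) = g.t0 := rfl
  have u4 : g.s2.qs (v.q1.qs (w.p1.qs s.t)) = g.t1 := rfl
  have u5 : g.s1.qs v.tau = g.tau := rfl
  have u6 : ∀ j : Fin k, g.s1.qs (v.q2.qs (w.p2.qs (s'.c n j.succ))) = g.cz n j := fun _ => rfl
  have u7 : ∀ j : Fin k, g.s1.qs (v.q1.qs (w.p2.qs (s'.c n j.succ))) = g.cx0 n j := fun _ => rfl
  have u8 : ∀ j : Fin k, g.s2.qs (v.q1.qs (w.p2.qs (s'.c n j.succ))) = g.cx1 n j := fun _ => rfl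
  have u9 : ∀ j : Fin k, g.s1.qs (v.q1.qs (w.p1.qs (s.c n j.succ))) = g.cr0 n j := fun _ => rfl
  have u10 : ∀ j : Fin k, g.s2.qs (v.q1.qs (w.p1.qs (s.c n j.succ))) = g.cr1 n j := fun _ => rfl
  simp only [u1, u2, u3, u4, u5, u6, u7, u8, u9, u10] at h1 h2
  linear_combination h2 - h1 + e1 - e2

/-- the base of the block -/
def fB : (Fin d ⊕ Fin d ⊕ Fin d) ⊕ (Unit ⊕ (Fin N × Fin k) ⊕ (Fin N × Fin k)) → QS g.D :=
  Sum.elim (Sum.elim (fun i => g.s1.qs (v.q1.qs (w.p2.qs (s'.a i))))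
    (Sum.elim (fun i => g.s1.qs (v.q1.qs (w.p2.qs (s'.x i))))
      (fun i => g.s1.qs (v.q1.qs (w.p1.qs (s.x i))))))
    (Sum.elim (fun _ => g.t0) (Sum.elim (fun a => g.cr0 a.1 a.2) (fun a => g.cx0 a.1 a.2)))

theorem LU_eq : vd (fun i => g.fB (Sum.inl i)) 1 = g.L ⊔ g.U := by
  have e : (fun i => g.fB (Sum.inl i)) = Sum.elim (fun i => g.s1.qs (v.q1.qs (w.p2.qs (s'.a i))))
    (Sum.elim (fun i => g.s1.qs (v.q1.qs (w.p2.qs (s'.x i))))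
      (fun i => g.s1.qs (v.q1.qs (w.p1.qs (s.x i))))) := rfl
  rw [e, vd_sum, vd_sum]
  have h1 : g.L = vd (fun i => g.s1.qs (v.q1.qs (w.p2.qs (s'.a i)))) 1 ⊔
      vd (fun i => g.s1.qs (v.q1.qs (w.p2.qs (s'.x i)))) 1 := by
    unfold L FV.iL
    rw [w.p2.map_sup, v.q1.map_sup, g.s1.map_sup, ← w.p2.qs_vd, ← w.p2.qs_vd, ← v.q1.qs_vd,
      ← v.q1.qs_vd, ← g.s1.qs_vd, ← g.s1.qs_vd]
    rfl
  have h2 : g.U = vd (fun i => g.s1.qs (v.q1.qs (w.p1.qs (s.x i)))) 1 := by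
    unfold U Zed.U FV.iX
    rw [← w.p1.qs_vd, ← v.q1.qs_vd, ← g.s1.qs_vd]
    rfl
  rw [h1, h2, sup_assoc]

theorem vd_fB (hs : Hyp2 s s') : vd g.fB 1 = g.B := by
  have e1 : vd g.fB 1 = vd (fun i => g.fB (Sum.inl i)) 1 ⊔ vd (fun i => g.fB (Sum.inr i)) 1 := by
    rw [← vd_sum]
    apply vd_congr
    intro i
    rcases i with i | i <;> rfl
  have e2 : (fun i => g.fB (Sum.inr i)) =
      Sum.elim (fun _ : Unit => g.t0) (Sum.elim (fun a : Fin N × Fin k => g.cr0 a.1 a.2) (fun a => g.cx0 a.1 a.2)) := rfl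
  rw [e1, e2, g.LU_eq, vd_sum, vd_sum, vd_unit, ← g.T0_eq]
  have a1 : vd (fun a : Fin N × Fin k => g.cr0 a.1 a.2) 1 ≤ g.L ⊔ g.U ⊔ g.T0 :=
    (vd_le _ _ _).mpr fun a => g.lcr0 hs a.1 a.2
  have a2 : vd (fun a : Fin N × Fin k => g.cx0 a.1 a.2) 1 ≤ g.L := (vd_le _ _ _).mpr fun a => g.lcx0 hs a.1 a.2
  have hB : g.B = g.L ⊔ g.U ⊔ g.T0 := rfl
  order

/-- the block -/
def blk : Bk g.D (Fin N) (Fin k ⊕ Fin k) ((Fin d ⊕ Fin d ⊕ Fin d) ⊕ (Unit ⊕ (Fin N × Fin k) ⊕ (Fin N × Fin k)))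
    Unit Unit where
  fB := g.fB
  fP := fun _ => g.t1
  fQ := fun _ => g.tau
  u n := Sum.elim (fun i : Fin k => g.t1 ^ ((i : ℕ) + 1)) (fun i => -g.A n i)
  v n := Sum.elim (g.C n) (fun i : Fin k => g.tau ^ ((i : ℕ) + 1))
  a := g.ta
  b := g.tb
  z := g.b0

theorem blk_z3 (hc : Com s s') : g.blk.z3 = g.b1 := by
  funext n
  rw [g.rect_eq hc]
  unfold VC.Bk.z3
  rw [Fintype.sum_sum_type]
  rfl

theorem A_le (hs : Hyp2 s s') (n : Fin N) (i : Fin k) : dg (g.A n i) 1 ≤ g.L ⊔ g.U ⊔ g.T1 :=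
  tay_mem (Kn g.D 1 le_rfl (g.L ⊔ g.U ⊔ g.T1)) (g.lcr1 hs n) (by
    rw [mem_Kn, ← g.T1_eq]
    exact le_sup_right) i

theorem P_le (hs : Hyp2 s s') : g.blk.P ≤ g.T1 ⊔ g.B := by
  have hB : g.B = g.L ⊔ g.U ⊔ g.T0 := rfl
  have a0 := g.T1_eq
  have kt : g.t1 ∈ Kn g.D 1 le_rfl (g.T1 ⊔ g.B) := by
    rw [mem_Kn]
    order
  unfold VC.Bk.P
  rw [vd_le]
  rintro (⟨n, i | i⟩ | n | i)
  · exact (Kn g.D 1 le_rfl (g.T1 ⊔ g.B)).pow_mem kt _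
  · refine (Kn g.D 1 le_rfl (g.T1 ⊔ g.B)).neg_mem ?_
    rw [mem_Kn]
    have a1 := g.A_le hs n i
    order
  · refine (Kn g.D 1 le_rfl (g.T1 ⊔ g.B)).neg_mem ((Kn g.D 1 le_rfl (g.T1 ⊔ g.B)).sum_mem fun j _ =>
      (Kn g.D 1 le_rfl (g.T1 ⊔ g.B)).mul_mem ?_ ((Kn g.D 1 le_rfl (g.T1 ⊔ g.B)).pow_mem kt _))
    rw [mem_Kn]
    have a1 := g.lcx1 hs n j
    order
  · exact kt

theorem Q_le (hs : Hyp2 s s') : g.blk.Q ≤ dg g.tau 1 ⊔ g.B := by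
  have hB : g.B = g.L ⊔ g.U ⊔ g.T0 := rfl
  have a0 := g.T0_eq
  have kt : g.tau ∈ Kn g.D 1 le_rfl (dg g.tau 1 ⊔ g.B) := by
    rw [mem_Kn]
    order
  have kt0 : g.t0 ∈ Kn g.D 1 le_rfl (dg g.tau 1 ⊔ g.B) := by
    rw [mem_Kn]
    order
  have kz : ∀ n j, g.cz n j ∈ Kn g.D 1 le_rfl (dg g.tau 1 ⊔ g.B) := by
    intro n j
    rw [mem_Kn]
    have a1 := g.lcz hs n j
    order
  have kr : ∀ n j, g.cr0 n j ∈ Kn g.D 1 le_rfl (dg g.tau 1 ⊔ g.B) := by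
    intro n j
    rw [mem_Kn]
    have a1 := g.lcr0 hs n j
    order
  have kx : ∀ n j, g.cx0 n j ∈ Kn g.D 1 le_rfl (dg g.tau 1 ⊔ g.B) := by
    intro n j
    rw [mem_Kn]
    have a1 := g.lcx0 hs n j
    order
  have key : ∀ (e : Fin k → QS g.D) (y : QS g.D), (∀ j, e j ∈ Kn g.D 1 le_rfl (dg g.tau 1 ⊔ g.B)) →
      y ∈ Kn g.D 1 le_rfl (dg g.tau 1 ⊔ g.B) → ∑ j, e j * y ^ ((j : ℕ) + 1) ∈ Kn g.D 1 le_rfl (dg g.tau 1 ⊔ g.B) := by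
    intro e y he hy
    exact (Kn g.D 1 le_rfl _).sum_mem fun j _ => (Kn g.D 1 le_rfl _).mul_mem (he j) ((Kn g.D 1 le_rfl _).pow_mem hy _)
  unfold VC.Bk.Q
  rw [vd_le]
  rintro (⟨n, i | i⟩ | n | i)
  · exact tay_mem (Kn g.D 1 le_rfl (dg g.tau 1 ⊔ g.B)) (kz n) kt i
  · exact (Kn g.D 1 le_rfl (dg g.tau 1 ⊔ g.B)).pow_mem kt _
  · refine (Kn g.D 1 le_rfl _).add_mem ((Kn g.D 1 le_rfl _).add_mem ((Kn g.D 1 le_rfl _).sub_mem ?_ ?_)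
      ((Kn g.D 1 le_rfl _).sub_mem ?_ ?_)) ?_
    · exact key _ _ (kz n) kt
    · exact key _ _ (kz n) ((Kn g.D 1 le_rfl _).add_mem kt0 kt)
    · exact key _ _ (kr n) ((Kn g.D 1 le_rfl _).add_mem kt0 kt)
    · exact key _ _ (kr n) kt0
    · exact key _ _ (kx n) kt0
  · exact kt

theorem blk_B (hs : Hyp2 s s') : g.blk.B = g.B := g.vd_fB hs

theorem blk_ok (hs : Hyp2 s s') : g.blk.Ok := by
  have a1 := g.P_le hs
  have a2 := g.Q_le hs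
  refine ⟨?_, ?_, ?_⟩
  · rw [g.blk_B hs]
    exact I_zero_mono (g.c1 hs) le_sup_left (by order)
  · rw [g.blk_B hs, g.blk_z3 hs.c]
    exact I_zero_mono (g.c2 hs) le_sup_left (by order)
  · rw [g.blk_B hs]
    exact I_zero_mono (g.c3 hs) a1 a2

end Rct


end

end Pool.Agent.Helper50.VM
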