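import Pool.Agent.Helper50.VC.SloV
import Pool.Agent.Helper50.VM.Rct

/-! Exact entropy calculus: slopes of curved lines of several types with vector valued top coordinates at depth `θ`.
Version of VC/SloV for several types: the lines of a star may have different types. -/

set_option autoImplicit false

namespace Pool.Agent.Helper50.VM

open Pool.Agent.Helper31.EC QS Pool.Agent.Helper38.NS Pool.Agent.Helper99.EC Pool.Agent.Helper96.FLT
open Pool.Agent.Helper50.CV (comp_assoc')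
open Pool.Agent.Helper50.VC (VB poly_slopeT)

noncomputable section

variable {S : Sp} {d k N : ℕ}

theorem Com.q {s s' : VB S d k N} (hc : Com s s') : s'.q = s.q := by
  unfold VB.q
  rw [hc.t, hc.y]

theorem Com.fQ {s s' : VB S d k N} (hc : Com s s') : s'.fQ = s.fQ := by
  unfold VB.fQ
  rw [hc.q, hc.z]

theorem Com.iP {s s' : VB S d k N} (hc : Com s s') : s'.iP = s.iP := by
  unfold VB.iP
  rw [hc.iT, hc.iY, hc.iZ]

/-- several types of lines through the same points -/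
structure Hyps (s0 : VB S d k N) {ι : Type} (σ : ι → VB S d k N) : Prop where
  c : ∀ i, Com s0 (σ i)
  h : ∀ i, (σ i).Hyp

theorem Hyps.h2 {s0 : VB S d k N} {ι : Type} {σ : ι → VB S d k N} (hs : Hyps s0 σ) (i j : ι) : Hyp2 (σ i) (σ j) :=
  ⟨(hs.c i).symm.trans (hs.c j), hs.h i, hs.h j⟩

/-- two lines of a star -/
def star2 {s0 : VB S d k N} {ι : Type} [Fintype ι] [DecidableEq ι] {σ : ι → VB S d k N} (hs : Hyps s0 σ) {W : Sp}
    {p : ι → Pj W S} (hp : IsStar s0.fQ p) {i j : ι} (hij : i ≠ j) : (σ i).fv.Star where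
  D := W
  p1 := p i
  p2 := p j
  cy l := by
    rw [(hs.c i).y]
    exact hp.com i j (Sum.inl l.succ)
  cz n := by
    rw [(hs.c i).z]
    exact hp.com i j (Sum.inr n)
  ct := by
    have h1 : (p i).qs s0.t = (p j).qs s0.t := hp.com i j (Sum.inl 0)
    rw [← (hs.c i).t] at h1
    exact h1
  ci x y := by
    have h1 := hp.I_sup (s := {i}) (t := {j}) (by simpa using hij) i (fun l => if l = i then x else y)
    rw [Finset.sup_singleton, Finset.sup_singleton, if_pos rfl, if_neg hij.symm, s0.vd_fQ] at h1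
    rw [(hs.c i).iT, (hs.c i).iY, (hs.c i).iZ]
    exact h1

/-- directions of a star -/
def drs {ι : Type} (σ : ι → VB S d k N) {W : Sp} (p : ι → Pj W S) (a : ι × Fin d) : QS W := (p a.1).qs ((σ a.1).x a.2)

theorem vd_drs {ι : Type} [Fintype ι] (σ : ι → VB S d k N) {W : Sp} (p : ι → Pj W S) :
    vd (drs σ p) 1 = Finset.univ.sup fun i => (p i).map (σ i).fv.iX := by
  apply le_antisymm
  · rw [vd_le]
    intro a
    refine le_trans ?_ (Finset.le_sup (Finset.mem_univ a.1))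
    show dg ((p a.1).qs ((σ a.1).x a.2)) 1 ≤ _
    rw [(p a.1).qs_dg]
    exact (p a.1).map_mono (dg_le_vd (σ a.1).x 1 a.2)
  · apply Finset.sup_le
    intro i _
    have h1 : (σ i).fv.iX = vd (σ i).x 1 := rfl
    rw [h1, ← (p i).qs_vd, vd_le]
    intro j
    exact dg_le_vd (drs σ p) 1 (i, j)

theorem Hyps.sP {s0 : VB S d k N} {ι : Type} {σ : ι → VB S d k N} (hs : Hyps s0 σ) (i : ι) :
    I (σ i).fv.iX s0.iP ⊥ = 0 := by
  rw [← (hs.c i).iP]
  exact (hs.h i).s1

theorem drs_ind {s0 : VB S d k N} {ι : Type} [Fintype ι] {σ : ι → VB S d k N} (hs : Hyps s0 σ) {W : Sp}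
    {p : ι → Pj W S} (hp : IsStar s0.fQ p) (i0 : ι) : I (vd (drs σ p) 1) ((p i0).map (vd s0.fQ 1)) ⊥ = 0 := by
  rw [vd_drs σ p]
  apply hp.I_free i0
  intro i
  rw [s0.vd_fQ]
  exact hs.sP i

/-- the point is real over the directions -/
theorem q_rl {s0 : VB S d k N} {ι : Type} [Fintype ι] {σ : ι → VB S d k N} (hs : Hyps s0 σ) (hq : Rl s0.q ⊥) {W : Sp}
    {p : ι → Pj W S} (hp : IsStar s0.fQ p) (i0 : ι) : Rl (fun j => (p i0).qs (s0.q j)) (vd (drs σ p) 1) := by
  have h1 : I (vd (fun j => (p i0).qs (s0.q j)) 1) (vd (drs σ p) 1) ⊥ = 0 := by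
    rw [I_comm]
    refine I_zero_mono (drs_ind hs hp i0) le_sup_left ?_
    refine le_trans ?_ le_sup_left
    rw [(p i0).qs_vd]
    apply (p i0).map_mono
    rw [vd_le]
    intro j
    exact dg_le_vd s0.fQ 1 (Sum.inl j)
  have h2 := I_zero_iff_h.mp h1
  have h3 := hq.pull (p i0)
  rw [(p i0).map_bot] at h3
  unfold Rl at h3 ⊢
  rw [sup_bot_eq] at h2
  rw [h2]
  exact h3

/-- the frame of a star -/
def mat {ι : Type} (σ : ι → VB S d k N) {W : Sp} (p : ι → Pj W S) : Matrix ι (Fin (d + 1)) (QS W) :=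
  Matrix.of fun i j => (p i).qs ((σ i).v j)

theorem mat_zero {ι : Type} (σ : ι → VB S d k N) {W : Sp} (p : ι → Pj W S) (i : ι) : mat σ p i 0 = 1 := by
  show (p i).qs 1 = 1
  rw [map_one]

theorem mat_le {ι : Type} [Fintype ι] (σ : ι → VB S d k N) {W : Sp} (p : ι → Pj W S) (i : ι) (j : Fin (d + 1)) :
    dg (mat σ p i j) 1 ≤ vd (drs σ p) 1 := by
  induction j using Fin.cases with
  | zero =>
    rw [mat_zero]
    exact (Kn W 1 le_rfl _).one_mem
  | succ j => exact dg_le_vd (drs σ p) 1 (i, j)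

/-- coordinates of the line through the base point -/
theorem line_eq {s0 : VB S d k N} {ι : Type} [Fintype ι] {σ : ι → VB S d k N} (hs : Hyps s0 σ) {W : Sp}
    {p : ι → Pj W S} (hp : IsStar s0.fQ p) (i0 j : ι) (l : Fin d) :
    (p j).qs ((σ j).a l) = (p i0).qs (s0.q l.succ) - (p i0).qs (s0.q 0) * mat σ p j l.succ := by
  have hc : ∀ l, (p i0).qs (s0.q l) = (p j).qs (s0.q l) := fun l => hp.com i0 j (Sum.inl l)
  rw [hc, hc, ← (hs.c j).q]
  show _ = (p j).qs ((σ j).fv.y l) - (p j).qs (σ j).fv.t * (p j).qs ((σ j).fv.x l)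
  unfold FV.y
  rw [map_add, map_mul]
  show _ = (p j).qs ((σ j).a l) + _ - _
  ring

theorem line_le {s0 : VB S d k N} {ι : Type} [Fintype ι] {σ : ι → VB S d k N} (hs : Hyps s0 σ) {W : Sp}
    {p : ι → Pj W S} (hp : IsStar s0.fQ p) (i0 j : ι) :
    (p j).map (σ j).fv.iL ≤ vd (fun l => (p i0).qs (s0.q l) - (p i0).qs (s0.q 0) * mat σ p j l) 1 ⊔
      vd (drs σ p) 1 := by
  unfold FV.iL
  rw [(p j).map_sup]
  apply sup_le
  · refine le_trans ?_ le_sup_left
    rw [← (p j).qs_vd, vd_le]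
    intro l
    show dg ((p j).qs ((σ j).a l)) 1 ≤ _
    rw [line_eq hs hp i0 j l]
    exact dg_le_vd (fun l => (p i0).qs (s0.q l) - (p i0).qs (s0.q 0) * mat σ p j l) 1 l.succ
  · refine le_trans ?_ le_sup_right
    rw [vd_drs σ p]
    exact Finset.le_sup (f := fun i => (p i).map (σ i).fv.iX) (Finset.mem_univ j)

/-- statement (H1) for two types at depth `θ`: along the second line (type `s'`) of a star the coefficients of the
first line (type `s`) are polynomials of the height -/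
def H1P (s s' : VB S d k N) (θ : ℝ) : Prop := ∀ w : s.fv.Star, ∃ (E : Sp) (p : Pj E w.D)
  (Ψ : Fin N → Fin k → Fin (2 * k + 1) → QS E),
  (∀ n m, vd (Ψ n m) 1 ≤ p.map (w.p2.map s'.fv.iL ⊔ w.p1.map s.fv.iX)) ∧
  ∀ n m, p.qs (w.p1.qs (s.c n m.succ)) - pe (Ψ n m) (p.qs (w.p1.qs s.t)) ∈ Id E θ

/-- the coefficients of one line along another one -/
def PrM {ι : Type} (σ : ι → VB S d k N) (θ : ℝ) {W : Sp} (p : ι → Pj W S) (i j : ι) (V : Sp) (r : Pj V W) : Prop :=
  ∃ Ψ : Fin N → Fin k → Fin (2 * k + 1) → QS V,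
    (∀ n m, vd (Ψ n m) 1 ≤ r.map ((p j).map (σ j).fv.iL ⊔ (p i).map (σ i).fv.iX)) ∧
    ∀ n m, r.qs ((p i).qs ((σ i).c n m.succ)) - pe (Ψ n m) (r.qs ((p i).qs (σ i).t)) ∈ Id V θ

theorem PrM.up {ι : Type} {σ : ι → VB S d k N} {θ : ℝ} (hθ : θ ≤ 1) {W : Sp} {p : ι → Pj W S} {i j : ι} {V V' : Sp}
    {r : Pj V W} (q : Pj V' V) (h : PrM σ θ p i j V r) : PrM σ θ p i j V' (q.comp r) := by
  obtain ⟨Ψ, a1, a2⟩ := h
  refine ⟨fun n m l => q.qs (Ψ n m l), fun n m => ?_, fun n m => ?_⟩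
  · rw [q.qs_vd, Pj.comp_map]
    exact q.map_mono (a1 n m)
  · have b1 := (q.qs_mem_Id hθ).mpr (a2 n m)
    rw [map_sub, pe_map] at b1
    rw [Pj.comp_qs, Pj.comp_qs]
    exact b1

theorem exists_prM {s0 : VB S d k N} {ι : Type} [Fintype ι] [DecidableEq ι] {σ : ι → VB S d k N} (hs : Hyps s0 σ)
    {θ : ℝ} {W : Sp} {p : ι → Pj W S} (hp : IsStar s0.fQ p) {i j : ι} (hij : i ≠ j) (hH : H1P (σ i) (σ j) θ) (V : Sp)
    (r : Pj V W) : ∃ (V' : Sp) (q : Pj V' V), PrM σ θ p i j V' (q.comp r) := by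
  obtain ⟨E, q, Ψ, a1, a2⟩ : ∃ (E : Sp) (q : Pj E V) (Ψ : Fin N → Fin k → Fin (2 * k + 1) → QS E),
      (∀ n m, vd (Ψ n m) 1 ≤ q.map ((r.comp (p j)).map (σ j).fv.iL ⊔ (r.comp (p i)).map (σ i).fv.iX)) ∧
      ∀ n m, q.qs ((r.comp (p i)).qs ((σ i).c n m.succ)) - pe (Ψ n m) (q.qs ((r.comp (p i)).qs (σ i).t)) ∈ Id E θ :=
    hH (star2 hs (hp.pull r) hij)
  refine ⟨E, q, Ψ, fun n m => ?_, fun n m => ?_⟩
  · have h3 := a1 n m
    rw [Pj.comp_map, Pj.comp_map, ← r.map_sup, ← Pj.comp_map] at h3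
    exact h3
  · have h3 := a2 n m
    rw [Pj.comp_qs, Pj.comp_qs] at h3
    rw [Pj.comp_qs, Pj.comp_qs]
    exact h3

/-- SLOPES ARE POLYNOMIALS at depth `θ`: one coefficient of one line on an extension -/
def SlM (s0 : VB S d k N) (σ : Fin (d + 1) → VB S d k N) (θ : ℝ) {W : Sp} (p : Fin (d + 1) → Pj W S) (n : Fin N)
    (i : Fin (d + 1)) (m : Fin k) (V : Sp) (r : Pj V W) : Prop :=
  ∃ P : MvPolynomial (Fin (d + 1)) (QS V), P ∈ PK (r.map (vd (drs σ p) 1)) ∧ P.totalDegree ≤ 2 * k * (d + 1) ∧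
    r.qs ((p i).qs ((σ i).c n m.succ)) - MvPolynomial.eval (fun j => r.qs ((p 0).qs (s0.q j))) P ∈ Id V θ

theorem SlM.up {s0 : VB S d k N} {σ : Fin (d + 1) → VB S d k N} {θ : ℝ} (hθ : θ ≤ 1) {W : Sp}
    {p : Fin (d + 1) → Pj W S} {n : Fin N} {i : Fin (d + 1)} {m : Fin k} {V V' : Sp} {r : Pj V W} (q : Pj V' V)
    (h : SlM s0 σ θ p n i m V r) : SlM s0 σ θ p n i m V' (q.comp r) := by
  obtain ⟨P, a1, a2, a3⟩ := h
  refine ⟨MvPolynomial.map q.qs P, ?_, (totalDegree_map_le _ _).trans a2, ?_⟩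
  · rw [Pj.comp_map]
    exact map_PK q a1
  · have b1 := (q.qs_mem_Id hθ).mpr a3
    rw [map_sub, qs_eval] at b1
    have e1 : (fun j => (q.comp r).qs ((p 0).qs (s0.q j))) = fun j => q.qs (r.qs ((p 0).qs (s0.q j))) :=
      funext fun j => Pj.comp_qs _ _ _
    rw [Pj.comp_qs, e1]
    exact b1

theorem exists_slM {s0 : VB S d k N} {σ : Fin (d + 1) → VB S d k N} (hs : Hyps s0 σ) (hq : Rl s0.q ⊥) {θ : ℝ}
    (h0 : 0 ≤ θ) (hθ : θ ≤ 1) {W : Sp} {p : Fin (d + 1) → Pj W S} (hp : IsStar s0.fQ p)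
    (hdet : IsUnit (mat σ p).det) (n : Fin N) (i : Fin (d + 1)) (m : Fin k) (V : Sp) (r : Pj V W)
    (hr : ∀ j, i ≠ j → PrM σ θ p i j V r) : ∃ (V' : Sp) (q : Pj V' V), SlM s0 σ θ p n i m V' (q.comp r) := by
  have hU : vd (fun a => r.qs (drs σ p a)) 1 = r.map (vd (drs σ p) 1) := r.qs_vd _ _
  have hF : dg ((p i).qs ((σ i).c n m.succ)) 1 ≤ (p i).map (σ i).fv.iL := by
    rw [(p i).qs_dg]
    exact (p i).map_mono ((hs.h i).hF n m)
  have hl : ∀ j, r.map (vd (fun l => (p 0).qs (s0.q l) - (p 0).qs (s0.q 0) * mat σ p j l) 1) =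
      vd (fun l => r.qs ((p 0).qs (s0.q l)) - r.qs ((p 0).qs (s0.q 0)) * (mat σ p).map r.qs j l) 1 := by
    intro j
    rw [← r.qs_vd]
    apply vd_congr
    intro l
    rw [map_sub, map_mul]
    rfl
  have hM : ∀ i j, dg ((mat σ p).map r.qs i j) 1 ≤ vd (fun a => r.qs (drs σ p a)) 1 := by
    intro i j
    rw [Matrix.map_apply, r.qs_dg, hU]
    exact r.map_mono (mat_le σ p i j)
  have hcl : ∀ j, vd (fun l => r.qs ((p 0).qs (s0.q l)) - r.qs ((p 0).qs (s0.q 0)) * (mat σ p).map r.qs j l) 1 ≤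
      vd (fun l => r.qs ((p 0).qs (s0.q l))) 1 ⊔ vd (fun a => r.qs (drs σ p a)) 1 := by
    intro j
    rw [vd_le]
    intro l
    apply (Kn V 1 le_rfl _).sub_mem
    · exact (dg_le_vd (fun l => r.qs ((p 0).qs (s0.q l))) 1 l).trans le_sup_left
    · apply (Kn V 1 le_rfl _).mul_mem
      · exact (dg_le_vd (fun l => r.qs ((p 0).qs (s0.q l))) 1 0).trans le_sup_left
      · exact (hM j l).trans le_sup_right
  obtain ⟨E, q, P, h1, h2, h3⟩ := poly_slopeT h0 hθ (K := 2 * k) (fun a => r.qs (drs σ p a)) ((mat σ p).map r.qs) hM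
    (fun i => by rw [Matrix.map_apply, mat_zero, map_one])
    (by
      have h := hdet.map r.qs
      rw [RingHom.map_det] at h
      exact h)
    (fun j => r.qs ((p 0).qs (s0.q j)))
    (by
      rw [hU]
      exact (q_rl hs hq hp 0).pull r)
    (r.qs ((p i).qs ((σ i).c n m.succ)))
    (by
      have e := r.map_mono (line_le hs hp 0 i)
      rw [r.map_sup, hl i, ← hU] at e
      rw [r.qs_dg]
      exact ((r.map_mono hF).trans e).trans (sup_le (hcl i) le_sup_right))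
    (fun j => by
      have e := r.map_mono (line_le hs hp 0 j)
      rw [r.map_sup, hl j, ← hU] at e
      by_cases hij : i = j
      · subst hij
        have e1 : dg (r.qs ((p i).qs ((σ i).c n m.succ))) 1 ≤
            vd (fun l => r.qs ((p 0).qs (s0.q l)) - r.qs ((p 0).qs (s0.q 0)) * (mat σ p).map r.qs i l) 1 ⊔
              vd (fun a => r.qs (drs σ p a)) 1 := by
          rw [r.qs_dg]
          exact (r.map_mono hF).trans e
        refine ⟨fun n' => if n' = 0 then r.qs ((p i).qs ((σ i).c n m.succ)) else 0, ?_, ?_⟩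
        · unfold pe
          rw [Finset.sum_eq_single 0]
          · beta_reduce
            rw [if_pos rfl, Fin.val_zero, pow_zero, mul_one, sub_self]
            exact Ideal.zero_mem _
          · intro n _ hn
            beta_reduce
            rw [if_neg hn, zero_mul]
          · intro h
            exact absurd (Finset.mem_univ _) h
        · rw [vd_le]
          intro n'
          show dg (if n' = 0 then r.qs ((p i).qs ((σ i).c n m.succ)) else 0) 1 ≤ _
          by_cases hn : n' = 0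
          · rw [if_pos hn]
            exact e1
          · rw [if_neg hn]
            exact (Kn V 1 le_rfl _).zero_mem
      · obtain ⟨Ψ, a1, a2⟩ := hr j hij
        have e1 : r.map ((p j).map (σ j).fv.iL ⊔ (p i).map (σ i).fv.iX) ≤
            vd (fun l => r.qs ((p 0).qs (s0.q l)) - r.qs ((p 0).qs (s0.q 0)) * (mat σ p).map r.qs j l) 1 ⊔
              vd (fun a => r.qs (drs σ p a)) 1 := by
          rw [r.map_sup]
          apply sup_le e
          refine le_trans ?_ le_sup_right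
          rw [hU, vd_drs σ p]
          exact r.map_mono (Finset.le_sup (f := fun i => (p i).map (σ i).fv.iX) (Finset.mem_univ i))
        refine ⟨Ψ n m, ?_, (a1 n m).trans e1⟩
        have e3 : (p 0).qs (s0.q 0) = (p i).qs (σ i).t := by
          have e4 : (p 0).qs (s0.q 0) = (p i).qs s0.t := hp.com 0 i (Sum.inl 0)
          rw [e4, (hs.c i).t]
        rw [e3]
        exact a2 n m)
  refine ⟨E, q, P, ?_, h2, ?_⟩
  · rw [Pj.comp_map, ← hU]
    exact h1
  · have e1 : (fun j => (q.comp r).qs ((p 0).qs (s0.q j))) = fun j => q.qs (r.qs ((p 0).qs (s0.q j))) :=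
      funext fun j => Pj.comp_qs _ _ _
    rw [Pj.comp_qs, e1]
    exact h3

/-- SLOPES OF CURVED LINES of several types for vectors at depth `θ`: all coefficients of all lines of a star of
`d + 1` lines in general position are at depth `θ` polynomials in the point with coefficients known to the directions -/
theorem slopesM {s0 : VB S d k N} {σ : Fin (d + 1) → VB S d k N} (hs : Hyps s0 σ) (hq : Rl s0.q ⊥) {θ : ℝ}
    (h0 : 0 ≤ θ) (hθ : θ ≤ 1) (hH : ∀ i j, H1P (σ i) (σ j) θ) {W : Sp} {p : Fin (d + 1) → Pj W S}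
    (hp : IsStar s0.fQ p) (hdet : IsUnit (mat σ p).det) (V : Sp) (r : Pj V W) :
    ∃ (V' : Sp) (q : Pj V' V), ∀ n i m, SlM s0 σ θ p n i m V' (q.comp r) := by
  classical
  obtain ⟨W1, q1, h1⟩ := ext_all (Finset.univ : Finset (Fin (d + 1) × Fin (d + 1)))
    (fun a V' t => a.1 ≠ a.2 → PrM σ θ p a.1 a.2 V' (t.comp r))
    (fun a V' t V'' t' h hij => by
      rw [comp_assoc']
      exact (h hij).up hθ t')
    (fun a V' t => by
      by_cases hij : a.1 = a.2
      · exact ⟨V', Pj.id V', fun h => absurd hij h⟩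
      · obtain ⟨V'', t', h⟩ := exists_prM hs hp hij (hH a.1 a.2) V' (t.comp r)
        exact ⟨V'', t', fun _ => h⟩)
  obtain ⟨W2, q2, h2⟩ := ext_all (Finset.univ : Finset (Fin N × (Fin (d + 1) × Fin k)))
    (fun a V' t => SlM s0 σ θ p a.1 a.2.1 a.2.2 V' (t.comp (q1.comp r)))
    (fun a V' t V'' t' h => by
      rw [comp_assoc']
      exact h.up hθ t')
    (fun a V' t => by
      obtain ⟨V'', t', h⟩ := exists_slM hs hq h0 hθ hp hdet a.1 a.2.1 a.2.2 V' (t.comp (q1.comp r))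
        (fun j hij => (h1 (a.2.1, j) (Finset.mem_univ _) hij).up hθ t)
      exact ⟨V'', t', h⟩)
  exact ⟨W2, q2.comp q1, fun n i m => h2 (n, (i, m)) (Finset.mem_univ _)⟩

end

end Pool.Agent.Helper50.VM
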