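import Pool.Agent.Helper50.VM.Sta
import Pool.Agent.Helper38.NS.LoopW
import Pool.Agent.Helper99.EC.Leaf

/-! Exact entropy calculus: potentials of stars of curved lines of several types with vector valued top coordinates:
heights over lines, uniqueness of potentials, lifts of polynomials from small depth. -/

set_option autoImplicit false

namespace Pool.Agent.Helper50.VM

open Pool.Agent.Helper31.EC QS Pool.Agent.Helper38.NS Pool.Agent.Helper99.EC Pool.Agent.Helper96.FLT
open Pool.Agent.Helper50.VC (VB)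

noncomputable section

section line

variable {S : Sp} {d k N : ℕ} {ι : Type} [Fintype ι]

/-- the height is free over a line and all directions of the star -/
theorem ht_line {s0 : VB S d k N} {σ : ι → VB S d k N} (hs : Hyps s0 σ) {W : Sp} {p : ι → Pj W S}
    (hp : IsStar s0.fQ p) (l : ι) :
    h ((p l).map s0.fv.iT) ((p l).map ((σ l).fv.iL ⊔ (σ l).fv.iB) ⊔ vd (drs σ p) 1) = 1 := by
  classical
  obtain ⟨U', hU'⟩ : ∃ U', U' = (Finset.univ.erase l).sup fun i => (p i).map (σ i).fv.iX := ⟨_, rfl⟩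
  have h1 := hp.I_free_line l (s := Finset.univ.erase l) (Finset.notMem_erase l _) (fun i => (σ i).fv.iX)
    (fun i => by rw [s0.vd_fQ]; exact hs.sP i) ((σ l).fv.iL ⊔ (σ l).fv.iB)
  rw [s0.vd_fQ, ← hU'] at h1
  have h2 : I U' ((p l).map s0.fv.iT) ((p l).map ((σ l).fv.iL ⊔ (σ l).fv.iB)) = 0 := by
    refine ind_of h1 bot_le (le_sup_right.trans le_sup_left) le_sup_left ?_
    refine le_trans ?_ le_sup_left
    refine le_trans ?_ le_sup_left
    apply (p l).map_mono
    unfold VB.iP
    order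
  have ht : h s0.fv.iT ((σ l).fv.iL ⊔ (σ l).fv.iB) = 1 := by
    rw [← (hs.c l).iT]
    exact (hs.h l).ht
  rw [I_zero_iff_h', Pj.h_map, ht] at h2
  apply le_antisymm
  · refine (h_anti (le_sup_left : (p l).map ((σ l).fv.iL ⊔ (σ l).fv.iB) ≤ _)).trans ?_
    rw [Pj.h_map, ht]
  · refine h2.ge.trans (h_anti ?_)
    apply sup_le (le_sup_right)
    rw [vd_drs]
    apply Finset.sup_le
    intro i _
    by_cases hi : i = l
    · rw [hi]
      refine le_trans ?_ le_sup_right
      apply (p l).map_mono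
      have h3 : (σ l).fv.iX ≤ (σ l).fv.iL := le_sup_right
      exact h3.trans le_sup_left
    · refine le_trans ?_ le_sup_left
      rw [hU']
      exact Finset.le_sup (f := fun i => (p i).map (σ i).fv.iX) (Finset.mem_erase.mpr ⟨hi, Finset.mem_univ _⟩)

end line

variable {V : Sp} {D : ℕ}

/-- UNIQUENESS OF POTENTIALS modulo `Id κ`: a polynomial with known coefficients and no constant term whose increments
from height zero along a frame are small is small -/
theorem pot_unique {κ : ℝ} (κ0 : 0 < κ) (κ1 : κ ≤ 1) {U : V.L} (q : Fin (D + 1) → QS V) (hq : Rl q U)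
    (v : Fin (D + 1) → Fin (D + 1) → QS V) (hv0 : ∀ i, v i 0 = 1) (hv : ∀ i j, dg (v i j) 1 ≤ U)
    (hdet : IsUnit (Matrix.of v).det) (f : MvPolynomial (Fin (D + 1)) (QS V)) (hf : f ∈ PK U) (hf0 : f.coeff 0 = 0)
    (he : ∀ i, MvPolynomial.eval q f - MvPolynomial.eval (fun j => q j - q 0 * v i j) f ∈ Id V κ) :
    MvPolynomial.map (dQ κ κ0 κ1) f = 0 := by
  classical
  obtain ⟨g, hg⟩ : ∃ g, g = MvPolynomial.map (dQ κ κ0 κ1) f := ⟨_, rfl⟩
  obtain ⟨w, hw⟩ : ∃ w : Fin (D + 1) → Fin (D + 1) → QS (dp V κ κ0), ∀ i j, w i j = dQ κ κ0 κ1 (v i j) :=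
    ⟨_, fun _ _ => rfl⟩
  obtain ⟨x, hx⟩ : ∃ x : Fin (D + 1) → QS (dp V κ κ0), x = fun j => dQ κ κ0 κ1 (q j) := ⟨_, rfl⟩
  have hgm : g ∈ PK (dL κ κ0 U) := by
    rw [hg]
    exact map_dQ_PK hf κ κ0 κ1
  have hxr : Rl x (dL κ κ0 U) := by
    rw [hx]
    exact rl_dp hq κ κ0 κ1
  have hbe : ∀ (x : Fin (D + 1) → QS (dp V κ κ0)) (G : Fin (D + 1) → MvPolynomial (Fin (D + 1)) (QS (dp V κ κ0)))
      (f : MvPolynomial (Fin (D + 1)) (QS (dp V κ κ0))), MvPolynomial.eval x (MvPolynomial.bind₁ G f) =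
      MvPolynomial.eval (fun a => MvPolynomial.eval x (G a)) f := by
    intro x G f
    exact MvPolynomial.eval₂Hom_bind₁ (RingHom.id _) x G f
  have key : ∀ i (y : Fin (D + 1) → QS (dp V κ κ0)),
      MvPolynomial.eval y g = MvPolynomial.eval (fun j => y j - y 0 * w i j) g := by
    intro i
    obtain ⟨Q, hQ⟩ : ∃ Q, Q = MvPolynomial.bind₁ (fun a : Fin (D + 1) => (MvPolynomial.X a -
      MvPolynomial.X 0 * MvPolynomial.C (w i a) : MvPolynomial (Fin (D + 1)) (QS (dp V κ κ0)))) g := ⟨_, rfl⟩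
    have hQe : ∀ x, MvPolynomial.eval x Q = MvPolynomial.eval (fun a => x a - x 0 * w i a) g := by
      intro x
      rw [hQ, hbe]
      congr 2
      funext a
      rw [map_sub, map_mul, MvPolynomial.eval_C, MvPolynomial.eval_X, MvPolynomial.eval_X]
    have hQm : Q ∈ PK (dL κ κ0 U) := by
      rw [hQ]
      apply bind_mem _ _ hgm
      intro a
      refine (PK _).sub_mem (X_mem _ a) ((PK _).mul_mem (X_mem _ 0) (C_mem ?_))
      rw [hw]
      exact dQ_le (hv i a) κ κ0 κ1
    have hQg : g = Q := by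
      apply mv_unique (dL κ κ0 U) x g Q hxr hgm hQm
      rw [hQe, hg, hx]
      have e1 := he i
      rw [← dQ_eq_zero κ κ0 κ1, map_sub, map_eval', map_eval', sub_eq_zero] at e1
      have e2 : (fun a => dQ κ κ0 κ1 (q a) - dQ κ κ0 κ1 (q 0) * w i a) =
          fun j => dQ κ κ0 κ1 (q j - q 0 * v i j) := by
        funext j
        rw [map_sub, map_mul, hw]
      rw [e2]
      exact e1
    intro y
    rw [← hQe, ← hQg]
  have hinv : ∀ i (y : Fin (D + 1) → QS (dp V κ κ0)) (s : QS (dp V κ κ0)),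
      MvPolynomial.eval (fun a => y a + s * w i a) g = MvPolynomial.eval y g := by
    intro i y s
    rw [key i, key i y]
    congr 2
    funext a
    have h1 : w i 0 = 1 := by rw [hw, hv0, map_one]
    rw [h1]
    ring
  have hdw : IsUnit (Matrix.of w).det := by
    have h1 := hdet.map (dQ κ κ0 κ1)
    rw [RingHom.map_det] at h1
    have h2 : (dQ κ κ0 κ1).mapMatrix (Matrix.of v) = Matrix.of w := by
      ext i j
      rw [RingHom.mapMatrix_apply, Matrix.map_apply, Matrix.of_apply, Matrix.of_apply, hw]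
    rw [h2] at h1
    exact h1
  have h0 := eval_inv g w hdw hinv x
  have h1 : g.coeff 0 = 0 := by
    rw [hg, MvPolynomial.coeff_map, hf0, map_zero]
  rw [h1] at h0
  rw [← hg]
  exact mv_eq_zero' _ x g hxr hgm h0

/-- polynomials lift from small depth without gaining information and monomials -/
theorem lift_poly {σ : Type} {κ : ℝ} {κ0 : 0 < κ} (κ1 : κ ≤ 1) {A : V.L} (P : MvPolynomial σ (QS (dp V κ κ0)))
    (hP : P ∈ PK (dL κ κ0 A)) :
    ∃ Q : MvPolynomial σ (QS V), MvPolynomial.map (dQ κ κ0 κ1) Q = P ∧ Q ∈ PK A ∧ Q.support ⊆ P.support := by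
  classical
  have h1 : ∀ m, ∃ c : QS V, dQ κ κ0 κ1 c = P.coeff m ∧ dg c 1 ≤ A := fun m => exists_lift κ1 _ (hP m)
  choose c hc1 hc2 using h1
  have hco : ∀ m, (∑ m ∈ P.support, MvPolynomial.monomial m (c m)).coeff m =
      if m ∈ P.support then c m else 0 := by
    intro m
    rw [MvPolynomial.coeff_sum]
    simp only [MvPolynomial.coeff_monomial]
    rw [Finset.sum_ite_eq']
  refine ⟨∑ m ∈ P.support, MvPolynomial.monomial m (c m), ?_, ?_, ?_⟩
  · ext m
    rw [MvPolynomial.coeff_map, hco]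
    by_cases hm : m ∈ P.support
    · rw [if_pos hm, hc1]
    · rw [if_neg hm, map_zero]
      rw [MvPolynomial.notMem_support_iff] at hm
      exact hm.symm
  · intro m
    rw [hco]
    by_cases hm : m ∈ P.support
    · rw [if_pos hm]
      exact hc2 m
    · rw [if_neg hm]
      exact (Kn V 1 le_rfl A).zero_mem
  · intro m hm
    rw [MvPolynomial.mem_support_iff, hco] at hm
    by_contra hc
    rw [if_neg hc] at hm
    exact hm rfl

theorem degree_of_support {σ A B : Type} [CommRing A] [CommRing B] {P : MvPolynomial σ A} {Q : MvPolynomial σ B}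
    (h : Q.support ⊆ P.support) : Q.totalDegree ≤ P.totalDegree := by
  unfold MvPolynomial.totalDegree
  exact Finset.sup_mono h

end

end Pool.Agent.Helper50.VM
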