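import Pool.Agent.Helper50.VM.Hm

/-! Exact entropy calculus: slopes of curved lines of several types with vector valued top coordinates at depth `θ`,
for all lines of a star which contains a frame. -/

set_option autoImplicit false

namespace Pool.Agent.Helper50.VM

open Pool.Agent.Helper31.EC QS Pool.Agent.Helper38.NS Pool.Agent.Helper99.EC Pool.Agent.Helper96.FLT
open Pool.Agent.Helper50.CV (comp_assoc')
open Pool.Agent.Helper50.VC (VB poly_slopeT)

noncomputable section

variable {S : Sp} {d k N : ℕ} {ι : Type}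

/-- the frame of a star -/
def frm (σ : ι → VB S d k N) {W : Sp} (p : ι → Pj W S) (e : Fin (d + 1) → ι) :
    Matrix (Fin (d + 1)) (Fin (d + 1)) (QS W) := Matrix.of fun i j => (p (e i)).qs ((σ (e i)).v j)

theorem frm_eq (σ : ι → VB S d k N) {W : Sp} (p : ι → Pj W S) (e : Fin (d + 1) → ι) (i j : Fin (d + 1)) :
    frm σ p e i j = mat σ p (e i) j := rfl

theorem frm_pull (σ : ι → VB S d k N) {W : Sp} (p : ι → Pj W S) (e : Fin (d + 1) → ι) {R : Sp} (r : Pj R W) :
    frm σ (fun i => r.comp (p i)) e = (frm σ p e).map r.qs := by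
  ext i j
  show (r.comp (p (e i))).qs ((σ (e i)).v j) = r.qs ((p (e i)).qs ((σ (e i)).v j))
  rw [Pj.comp_qs]

theorem frm_unit {σ : ι → VB S d k N} {W : Sp} {p : ι → Pj W S} {e : Fin (d + 1) → ι} {R : Sp} (r : Pj R W)
    (h : IsUnit (frm σ p e).det) : IsUnit (frm σ (fun i => r.comp (p i)) e).det := by
  rw [frm_pull]
  have h2 := RingHom.map_det r.qs (frm σ p e)
  rw [RingHom.mapMatrix_apply] at h2
  rw [← h2]
  exact h.map r.qs

variable [Fintype ι]

/-- SLOPES ARE POLYNOMIALS at depth `θ`: one coefficient of one line on an extension -/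
def SlG (s0 : VB S d k N) (σ : ι → VB S d k N) (θ : ℝ) {W : Sp} (p : ι → Pj W S) (i0 : ι) (n : Fin N)
    (i : ι) (m : Fin k) (V : Sp) (r : Pj V W) : Prop :=
  ∃ P : MvPolynomial (Fin (d + 1)) (QS V), P ∈ PK (r.map (vd (drs σ p) 1)) ∧ P.totalDegree ≤ 2 * k * (d + 1) ∧
    r.qs ((p i).qs ((σ i).c n m.succ)) - MvPolynomial.eval (fun j => r.qs ((p i0).qs (s0.q j))) P ∈ Id V θ

theorem SlG.up {s0 : VB S d k N} {σ : ι → VB S d k N} {θ : ℝ} (hθ : θ ≤ 1) {W : Sp}
    {p : ι → Pj W S} {i0 : ι} {n : Fin N} {i : ι} {m : Fin k} {V V' : Sp} {r : Pj V W} (q : Pj V' V)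
    (h : SlG s0 σ θ p i0 n i m V r) : SlG s0 σ θ p i0 n i m V' (q.comp r) := by
  obtain ⟨P, a1, a2, a3⟩ := h
  refine ⟨MvPolynomial.map q.qs P, ?_, (totalDegree_map_le _ _).trans a2, ?_⟩
  · rw [Pj.comp_map]
    exact map_PK q a1
  · have b1 := (q.qs_mem_Id hθ).mpr a3
    rw [map_sub, qs_eval] at b1
    have e1 : (fun j => (q.comp r).qs ((p i0).qs (s0.q j))) = fun j => q.qs (r.qs ((p i0).qs (s0.q j))) :=
      funext fun j => Pj.comp_qs _ _ _
    rw [Pj.comp_qs, e1]
    exact b1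

theorem exists_slG {s0 : VB S d k N} {σ : ι → VB S d k N} (hs : Hyps s0 σ) (hq : Rl s0.q ⊥) {θ : ℝ}
    (h0 : 0 ≤ θ) (hθ : θ ≤ 1) {W : Sp} {p : ι → Pj W S} (hp : IsStar s0.fQ p) (e : Fin (d + 1) → ι)
    (hdet : IsUnit (frm σ p e).det) (i0 : ι) (n : Fin N) (i : ι) (m : Fin k) (V : Sp) (r : Pj V W)
    (hr : ∀ j, i ≠ j → PrM σ θ p i j V r) : ∃ (V' : Sp) (q : Pj V' V), SlG s0 σ θ p i0 n i m V' (q.comp r) := by
  have hU : vd (fun a => r.qs (drs σ p a)) 1 = r.map (vd (drs σ p) 1) := r.qs_vd _ _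
  have hF : dg ((p i).qs ((σ i).c n m.succ)) 1 ≤ (p i).map (σ i).fv.iL := by
    rw [(p i).qs_dg]
    exact (p i).map_mono ((hs.h i).hF n m)
  have hl : ∀ j, r.map (vd (fun l => (p i0).qs (s0.q l) - (p i0).qs (s0.q 0) * mat σ p j l) 1) =
      vd (fun l => r.qs ((p i0).qs (s0.q l)) - r.qs ((p i0).qs (s0.q 0)) * r.qs (mat σ p j l)) 1 := by
    intro j
    rw [← r.qs_vd]
    apply vd_congr
    intro l
    rw [map_sub, map_mul]
  have hM : ∀ i j, dg (r.qs (mat σ p i j)) 1 ≤ vd (fun a => r.qs (drs σ p a)) 1 := by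
    intro i j
    rw [r.qs_dg, hU]
    exact r.map_mono (mat_le σ p i j)
  have hcl : ∀ j, vd (fun l => r.qs ((p i0).qs (s0.q l)) - r.qs ((p i0).qs (s0.q 0)) * r.qs (mat σ p j l)) 1 ≤
      vd (fun l => r.qs ((p i0).qs (s0.q l))) 1 ⊔ vd (fun a => r.qs (drs σ p a)) 1 := by
    intro j
    rw [vd_le]
    intro l
    apply (Kn V 1 le_rfl _).sub_mem
    · exact (dg_le_vd (fun l => r.qs ((p i0).qs (s0.q l))) 1 l).trans le_sup_left
    · apply (Kn V 1 le_rfl _).mul_mem
      · exact (dg_le_vd (fun l => r.qs ((p i0).qs (s0.q l))) 1 0).trans le_sup_left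
      · exact (hM j l).trans le_sup_right
  obtain ⟨E, q, P, h1, h2, h3⟩ := poly_slopeT h0 hθ (K := 2 * k) (fun a => r.qs (drs σ p a)) ((frm σ p e).map r.qs)
    (fun i j => by
      rw [Matrix.map_apply, frm_eq]
      exact hM (e i) j)
    (fun i => by rw [Matrix.map_apply, frm_eq, mat_zero, map_one])
    (by
      have h := hdet.map r.qs
      rw [RingHom.map_det] at h
      exact h)
    (fun j => r.qs ((p i0).qs (s0.q j)))
    (by
      rw [hU]
      exact (q_rl hs hq hp i0).pull r)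
    (r.qs ((p i).qs ((σ i).c n m.succ)))
    (by
      have e := r.map_mono (line_le hs hp i0 i)
      rw [r.map_sup, hl i, ← hU] at e
      rw [r.qs_dg]
      exact ((r.map_mono hF).trans e).trans (sup_le (hcl i) le_sup_right))
    (fun j => by
      show ∃ Ψ : Fin (2 * k + 1) → QS V, r.qs ((p i).qs ((σ i).c n m.succ)) -
          pe Ψ (r.qs ((p i0).qs (s0.q 0))) ∈ Id V θ ∧
        vd Ψ 1 ≤ vd (fun l => r.qs ((p i0).qs (s0.q l)) - r.qs ((p i0).qs (s0.q 0)) * r.qs (mat σ p (e j) l)) 1 ⊔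
          vd (fun a => r.qs (drs σ p a)) 1
      have e0 := r.map_mono (line_le hs hp i0 (e j))
      rw [r.map_sup, hl (e j), ← hU] at e0
      by_cases hij : i = e j
      · have e1 : dg (r.qs ((p i).qs ((σ i).c n m.succ))) 1 ≤
            vd (fun l => r.qs ((p i0).qs (s0.q l)) - r.qs ((p i0).qs (s0.q 0)) * r.qs (mat σ p (e j) l)) 1 ⊔
              vd (fun a => r.qs (drs σ p a)) 1 := by
          rw [r.qs_dg]
          refine (r.map_mono hF).trans ?_
          rw [hij]
          exact e0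
        refine ⟨fun n' => if n' = 0 then r.qs ((p i).qs ((σ i).c n m.succ)) else 0, ?_, ?_⟩
        · unfold pe
          rw [Finset.sum_eq_single 0]
          · beta_reduce
            rw [if_pos rfl, Fin.val_zero, pow_zero, mul_one, sub_self]
            exact Ideal.zero_mem _
          · intro n _ hn
            beta_reduce
            rw [if_neg hn, zero_mul]
          · intro h
            exact absurd (Finset.mem_univ _) h
        · rw [vd_le]
          intro n'
          show dg (if n' = 0 then r.qs ((p i).qs ((σ i).c n m.succ)) else 0) 1 ≤ _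
          by_cases hn : n' = 0
          · rw [if_pos hn]
            exact e1
          · rw [if_neg hn]
            exact (Kn V 1 le_rfl _).zero_mem
      · obtain ⟨Ψ, a1, a2⟩ := hr (e j) hij
        have e1 : r.map ((p (e j)).map (σ (e j)).fv.iL ⊔ (p i).map (σ i).fv.iX) ≤
            vd (fun l => r.qs ((p i0).qs (s0.q l)) - r.qs ((p i0).qs (s0.q 0)) * r.qs (mat σ p (e j) l)) 1 ⊔
              vd (fun a => r.qs (drs σ p a)) 1 := by
          rw [r.map_sup]
          apply sup_le e0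
          refine le_trans ?_ le_sup_right
          rw [hU, vd_drs σ p]
          exact r.map_mono (Finset.le_sup (f := fun i => (p i).map (σ i).fv.iX) (Finset.mem_univ i))
        refine ⟨Ψ n m, ?_, (a1 n m).trans e1⟩
        have e3 : (p i0).qs (s0.q 0) = (p i).qs (σ i).t := by
          have e4 : (p i0).qs (s0.q 0) = (p i).qs s0.t := hp.com i0 i (Sum.inl 0)
          rw [e4, (hs.c i).t]
        rw [e3]
        exact a2 n m)
  refine ⟨E, q, P, ?_, h2, ?_⟩
  · rw [Pj.comp_map, ← hU]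
    exact h1
  · have e1 : (fun j => (q.comp r).qs ((p i0).qs (s0.q j))) = fun j => q.qs (r.qs ((p i0).qs (s0.q j))) :=
      funext fun j => Pj.comp_qs _ _ _
    rw [Pj.comp_qs, e1]
    exact h3

/-- SLOPES OF CURVED LINES of several types for vectors at depth `θ`: all coefficients of all lines of a star which
contains a frame are at depth `θ` polynomials in the point with coefficients known to the directions -/
theorem slopesG {s0 : VB S d k N} {σ : ι → VB S d k N} (hs : Hyps s0 σ) (hq : Rl s0.q ⊥) {θ : ℝ}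
    (h0 : 0 ≤ θ) (hθ : θ ≤ 1) (hH : ∀ i j, H1P (σ i) (σ j) θ) {W : Sp} {p : ι → Pj W S}
    (hp : IsStar s0.fQ p) (e : Fin (d + 1) → ι) (hdet : IsUnit (frm σ p e).det) (i0 : ι) (V : Sp) (r : Pj V W) :
    ∃ (V' : Sp) (q : Pj V' V), ∀ n i m, SlG s0 σ θ p i0 n i m V' (q.comp r) := by
  classical
  obtain ⟨W1, q1, h1⟩ := ext_all (Finset.univ : Finset (ι × ι))
    (fun a V' t => a.1 ≠ a.2 → PrM σ θ p a.1 a.2 V' (t.comp r))
    (fun a V' t V'' t' h hij => by
      rw [comp_assoc']
      exact (h hij).up hθ t')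
    (fun a V' t => by
      by_cases hij : a.1 = a.2
      · exact ⟨V', Pj.id V', fun h => absurd hij h⟩
      · obtain ⟨V'', t', h⟩ := exists_prM hs hp hij (hH a.1 a.2) V' (t.comp r)
        exact ⟨V'', t', fun _ => h⟩)
  obtain ⟨W2, q2, h2⟩ := ext_all (Finset.univ : Finset (Fin N × (ι × Fin k)))
    (fun a V' t => SlG s0 σ θ p i0 a.1 a.2.1 a.2.2 V' (t.comp (q1.comp r)))
    (fun a V' t V'' t' h => by
      rw [comp_assoc']
      exact h.up hθ t')
    (fun a V' t => by
      obtain ⟨V'', t', h⟩ := exists_slG hs hq h0 hθ hp e hdet i0 a.1 a.2.1 a.2.2 V' (t.comp (q1.comp r))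
        (fun j hij => (h1 (a.2.1, j) (Finset.mem_univ _) hij).up hθ t)
      exact ⟨V'', t', h⟩)
  exact ⟨W2, q2.comp q1, fun n i m => h2 (n, (i, m)) (Finset.mem_univ _)⟩

end

end Pool.Agent.Helper50.VM
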